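import Pool.Agent.Lib.MP_31f1e8_mp.KLD.Defs

/-!
# Project KL (MP_31f1e8_mp): interfaces between the parts K (KAM curves of the reduced equation),
C (construction of the cell) and E (localisation). Auxiliary definitions.
-/

namespace Pool.Agent.MP31f1e8.KLF

open Set MeasureTheory

/-- `cos (2 π ω₀)`, `ω₀ = (3 - √5) / 2` -/
noncomputable def cc : ℝ := Real.cos (Real.pi * (3 - √5))

/-- the derivative of `∑ H_jk x^j y^k` in `x` -/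
noncomputable def d1 (H : ℕ → ℕ → ℝ) (x y : ℝ) : ℝ :=
  ∑' p : ℕ × ℕ, (p.1 : ℝ) * H p.1 p.2 * x ^ (p.1 - 1) * y ^ p.2

/-- the derivative of `∑ H_jk x^j y^k` in `y` -/
noncomputable def d2 (H : ℕ → ℕ → ℝ) (x y : ℝ) : ℝ :=
  ∑' p : ℕ × ℕ, (p.2 : ℝ) * H p.1 p.2 * x ^ p.1 * y ^ (p.2 - 1)

/-- the reduced equation at three consecutive points `x_{k-1}, x_k, x_{k+1}` -/
def Red (H : ℕ → ℕ → ℝ) (xm x xp : ℝ) : Prop :=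
  xp + xm = 2 * cc * x + x ^ 2 + d1 H x xp + d2 H xm x

/-- `∑ |H_jk| ≤ eta` -/
def Small (H : ℕ → ℕ → ℝ) (eta : ℝ) : Prop :=
  Summable (fun p : ℕ × ℕ => |H p.1 p.2|) ∧ ∑' p : ℕ × ℕ, |H p.1 p.2| ≤ eta

/-- The invariant curves of the reduced equation with frequencies in `D`. -/
structure Kam (kap as : ℝ) (D : Set ℝ) (H : ℕ → ℕ → ℝ) (X : ℝ → ℝ → ℝ) (a : ℝ → ℝ) (Cs : ℝ) :
    Prop where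
  per : ∀ om ∈ D, ∀ t, X om (t + 1) = X om t
  red : ∀ om ∈ D, ∀ t, Red H (X om (t - om)) (X om t) (X om (t + om))
  a1 : ∀ om ∈ D, as / 2 ≤ a om
  a2 : ∀ om ∈ D, a om ≤ as
  near : ∀ om ∈ D, ∀ t, |X om t - a om * Real.cos (2 * Real.pi * t)| ≤ kap * a om
  lip : ∀ om ∈ D, ∀ t t', |(X om t - a om * Real.cos (2 * Real.pi * t)) -
    (X om t' - a om * Real.cos (2 * Real.pi * t'))| ≤ kap * a om * |t - t'|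
  cont : ∀ om ∈ D, ∀ om' ∈ D, ∀ t, |X om t - X om' t| ≤ Cs * |om - om'|
  inj : ∀ om ∈ D, ∀ om' ∈ D, ∀ t t', |t - t'| ≤ 1 / 2 →
    |om - om'| + |t - t'| ≤ Cs * (|X om t - X om' t'| + |X om (t + om) - X om' (t' + om')|)

/-- Statement of part K. -/
def KamMain : Prop :=
  ∀ kap : ℝ, 0 < kap → ∃ as gam eta : ℝ, 0 < as ∧ as ≤ 1 / 8 ∧ 0 < gam ∧ 0 < eta ∧ ∃ D : Set ℝ,
    IsCompact D ∧ D ⊆ Icc 0 1 ∧ 0 < volume D ∧ (∀ om ∈ D, KLD.Dio gam om) ∧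
    ∀ H : ℕ → ℕ → ℝ, Small H eta → ∃ X : ℝ → ℝ → ℝ, ∃ a : ℝ → ℝ, ∃ Cs : ℝ, Kam kap as D H X a Cs

/-- The cell: orbit segments `x_0, …, x_q` with free end points `Xr + sg u`, `Xr + sg u'`, one deep
well at the site `w`; the junction condition is the reduced equation. All for `|u|, |u'| ≤ 1`. -/
structure Cell (lam eta kap : ℝ) (q w : ℕ) (m : ℕ → ℤ) (sg tau sigma Xr E0 : ℝ) (kp : ℕ → ℝ)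
    (x : ℕ → ℝ → ℝ → ℝ) (H : ℕ → ℕ → ℝ) : Prop where
  w1 : 1 ≤ w
  qw : 4 * w + 10 ≤ q
  sg0 : sg ≠ 0
  tau0 : 0 < tau
  sgtau : lam * tau * |sg| ≤ 1 / 10
  sig : sigma = 1 ∨ sigma = -1
  small : Small H eta
  x0 : ∀ u ∈ Icc (-1 : ℝ) 1, ∀ u' ∈ Icc (-1 : ℝ) 1, x 0 u u' = Xr + sg * u
  xq : ∀ u ∈ Icc (-1 : ℝ) 1, ∀ u' ∈ Icc (-1 : ℝ) 1, x q u u' = Xr + sg * u'
  eqn : ∀ u ∈ Icc (-1 : ℝ) 1, ∀ u' ∈ Icc (-1 : ℝ) 1, ∀ n, 1 ≤ n → n < q →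
    x (n + 1) u u' + x (n - 1) u u' = 2 * x n u u' + lam * Real.sin (x n u u') - 2 * Real.pi * m n
  junc : ∀ u ∈ Icc (-1 : ℝ) 1, ∀ v ∈ Icc (-1 : ℝ) 1, ∀ u' ∈ Icc (-1 : ℝ) 1, Red H u v u' →
    x 1 v u' + x (q - 1) u v = 2 * (Xr + sg * v) + lam * Real.sin (Xr + sg * v) - 2 * Real.pi * m 0
  wval : ∀ u ∈ Icc (-1 : ℝ) 1, ∀ u' ∈ Icc (-1 : ℝ) 1, |x w u u' - (Real.pi + 1 / 10)| ≤ 1 / 100
  wlow : ∀ u ∈ Icc (-1 : ℝ) 1, ∀ v ∈ Icc (-1 : ℝ) 1, ∀ u' ∈ Icc (-1 : ℝ) 1, v ≤ u →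
    tau / 2 * |sg| * (u - v) ≤ sigma * (x w u u' - x w v u')
  left : ∀ u ∈ Icc (-1 : ℝ) 1, ∀ v ∈ Icc (-1 : ℝ) 1, ∀ u' ∈ Icc (-1 : ℝ) 1, ∀ n, n ≤ w →
    |x n u u' - x n v u'| ≤ (lam + 4) ^ (w - n) * (2 * tau * |sg| * |u - v|)
  right : ∀ u ∈ Icc (-1 : ℝ) 1, ∀ v ∈ Icc (-1 : ℝ) 1, ∀ u' ∈ Icc (-1 : ℝ) 1, ∀ n, w ≤ n → n ≤ q →
    |x n u u' - x n v u'| ≤ (25 / lam) ^ (n - w) * (2 * tau * |sg| * |u - v|)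
  fut : ∀ u ∈ Icc (-1 : ℝ) 1, ∀ u' ∈ Icc (-1 : ℝ) 1, ∀ v' ∈ Icc (-1 : ℝ) 1, ∀ n, n ≤ q →
    |x n u u' - x n u v'| ≤ (25 / lam) ^ (q - n) * (|sg| * |u' - v'|)
  well : ∀ u ∈ Icc (-1 : ℝ) 1, ∀ u' ∈ Icc (-1 : ℝ) 1, |lam * Real.cos (x w u u') - E0| ≤ 1 / 2
  kp0 : ∀ n, n < q → n ≠ w → lam / 200 ≤ kp n
  barr : ∀ u ∈ Icc (-1 : ℝ) 1, ∀ u' ∈ Icc (-1 : ℝ) 1, ∀ n, n < q → n ≠ w →
    kp n + 3 ≤ |lam * Real.cos (x n u u') - E0|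
  hop : ∏ n ∈ (Finset.range q).erase w, (kp n)⁻¹ ≤ kap * (lam * tau * |sg|)

/-- Statement of part C. -/
def CellMain : Prop :=
  ∀ eta kap : ℝ, 0 < eta → 0 < kap → ∃ lam0 : ℝ, ∃ U : Set ℝ, IsOpen U ∧ U ⊆ Ioi lam0 ∧
    Ioi lam0 ⊆ closure U ∧ ∀ lam ∈ U, ∃ (q w : ℕ) (m : ℕ → ℤ) (sg tau sigma Xr E0 : ℝ) (kp : ℕ → ℝ)
      (x : ℕ → ℝ → ℝ → ℝ) (H : ℕ → ℕ → ℝ), Cell lam eta kap q w m sg tau sigma Xr E0 kp x H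

end Pool.Agent.MP31f1e8.KLF
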