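import Mathlib

/-!
KLF-Sums. The geometric sums for the barriers: `dl = 200 / lam`, `mu = (lam + 4) dl ^ 2`.
-/

namespace Pool.Agent.MP31f1e8.KLF

open Set Real

theorem geo1 {r : ℝ} (h0 : 0 ≤ r) (h1 : r ≤ 1 / 2) (q : ℕ) (hq : 1 ≤ q) :
    ∑ n ∈ Finset.Ico 1 q, r ^ n ≤ 2 * r - 2 * r ^ q := by
  induction q, hq using Nat.le_induction with
  | base => simp
  | succ q hq ih =>
    rw [Finset.sum_Ico_succ_top hq]
    have h2 : 0 ≤ r ^ q := pow_nonneg h0 _
    have h3 : r ^ (q + 1) = r ^ q * r := pow_succ _ _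
    nlinarith

theorem geo1' {r : ℝ} (h0 : 0 ≤ r) (h1 : r ≤ 1 / 2) (q : ℕ) :
    ∑ n ∈ Finset.Ico 1 q, r ^ n ≤ 2 * r := by
  rcases Nat.eq_zero_or_pos q with rfl | hq
  · simpa using h0
  · have := geo1 h0 h1 q hq
    linarith [pow_nonneg h0 q]

theorem geo2 {r : ℝ} (h0 : 0 ≤ r) (h1 : r ≤ 1 / 2) (q : ℕ) :
    ∑ n ∈ Finset.Ico 1 q, r ^ (q - n) ≤ 2 * r := by
  induction q with
  | zero => simpa using h0
  | succ q ih =>
    rcases Nat.eq_zero_or_pos q with rfl | hq
    · simpa using h0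
    · rw [Finset.sum_Ico_succ_top hq]
      have h2 : ∑ n ∈ Finset.Ico 1 q, r ^ (q + 1 - n) = r * ∑ n ∈ Finset.Ico 1 q, r ^ (q - n) := by
        rw [Finset.mul_sum]
        refine Finset.sum_congr rfl fun n hn => ?_
        rw [Finset.mem_Ico] at hn
        rw [show q + 1 - n = (q - n) + 1 by omega, pow_succ]
        ring
      rw [h2, show q + 1 - q = 1 by omega, pow_one]
      nlinarith

/-- Lipschitz constants of the barriers divided by `140 A` -/
noncomputable def bb (lam : ℝ) (q w n : ℕ) : ℝ :=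
  if w + n < q then (25 / lam) ^ n + (lam + 4) ^ w * (25 / lam) ^ (q - w - n)
  else 2 * (lam + 4) ^ (q - n)

section

variable {lam : ℝ} {q w : ℕ}

theorem dl_facts (hl : 10 ^ 12 ≤ lam) : 0 < 200 / lam ∧ 200 / lam ≤ 1 / 10 ^ 9 ∧
    (lam + 4) * (200 / lam) ^ 2 ≤ 1 / 10 ^ 7 ∧ 0 ≤ 25 / lam ∧ 25 / lam = 200 / lam / 8 := by
  have hl0 : 0 < lam := by linarith
  refine ⟨by positivity, ?_, ?_, by positivity, by ring⟩
  · rw [div_le_div_iff₀ hl0 (by norm_num)]
    linarith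
  · rw [div_pow, mul_div_assoc', div_le_div_iff₀ (by positivity) (by norm_num)]
    nlinarith

theorem bb_nonneg (hl : 10 ^ 12 ≤ lam) (n : ℕ) : 0 ≤ bb lam q w n := by
  have hl0 : 0 < lam := by linarith
  unfold bb
  split_ifs <;> positivity

/-- the sum to the right -/
theorem bbR (hl : 10 ^ 12 ≤ lam) (hq : 4 * w + 10 ≤ q) {n : ℕ} (hn1 : 1 ≤ n) (hn : n < q) :
    (140 * bb lam q w n + 1) * ((200 / lam) ^ n) ^ 2 ≤ 281 * (200 / lam) ^ n := by
  obtain ⟨d0, d1, d2, e0, e1⟩ := dl_facts hl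
  have hl0 : 0 < lam := by linarith
  set d := 200 / lam with hd
  have hdn : 0 < d ^ n := pow_pos d0 n
  have hd1 : d ≤ 1 := d1.trans (by norm_num)
  have hdn1 : d ^ n ≤ 1 := pow_le_one₀ d0.le hd1
  have hm0 : 0 ≤ (lam + 4) * d ^ 2 := by positivity
  have hm1 : (lam + 4) * d ^ 2 ≤ 1 := d2.trans (by norm_num)
  have key : bb lam q w n * d ^ n ≤ 2 := by
    unfold bb
    split_ifs with h
    · rw [e1, add_mul]
      have h1 : (d / 8) ^ n * d ^ n ≤ 1 := by
        rw [← mul_pow]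
        exact pow_le_one₀ (by positivity) (by nlinarith)
      have h2 : (lam + 4) ^ w * (d / 8) ^ (q - w - n) * d ^ n ≤ 1 := by
        have h3 : (d / 8) ^ (q - w - n) ≤ d ^ (q - w - n) := by
          gcongr
          linarith
        calc (lam + 4) ^ w * (d / 8) ^ (q - w - n) * d ^ n
            ≤ (lam + 4) ^ w * d ^ (q - w - n) * d ^ n := by gcongr
          _ = ((lam + 4) * d ^ 2) ^ w * d ^ (q - 3 * w) := by
            have h4 : d ^ (q - w - n) * d ^ n = (d ^ 2) ^ w * d ^ (q - 3 * w) := by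
              rw [← pow_add, ← pow_mul, ← pow_add]
              congr 1
              omega
            rw [mul_assoc, h4, mul_pow]
            ring
          _ ≤ 1 * 1 := by
            have h5 := pow_le_one₀ hm0 hm1 (n := w)
            have h6 := pow_le_one₀ d0.le hd1 (n := q - 3 * w)
            gcongr
          _ = 1 := one_mul 1
      linarith
    · have h1 : (lam + 4) ^ (q - n) * d ^ n ≤ 1 := by
        have h4 : d ^ n = (d ^ 2) ^ (q - n) * d ^ (n - 2 * (q - n)) := by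
          rw [← pow_mul, ← pow_add]
          congr 1
          omega
        calc (lam + 4) ^ (q - n) * d ^ n = ((lam + 4) * d ^ 2) ^ (q - n) * d ^ (n - 2 * (q - n)) := by
              rw [h4, mul_pow]; ring
          _ ≤ 1 * 1 := by
            have h5 := pow_le_one₀ hm0 hm1 (n := q - n)
            have h6 := pow_le_one₀ d0.le hd1 (n := n - 2 * (q - n))
            gcongr
          _ = 1 := one_mul 1
      linarith
  calc (140 * bb lam q w n + 1) * (d ^ n) ^ 2 = (140 * (bb lam q w n * d ^ n) + d ^ n) * d ^ n := by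
        ring
    _ ≤ (140 * 2 + 1) * d ^ n := by gcongr
    _ = 281 * d ^ n := by ring

/-- the sum to the left -/
theorem bbL (hl : 10 ^ 12 ≤ lam) (hq : 4 * w + 10 ≤ q) {n : ℕ} (hn1 : 1 ≤ n) (hn : n < q) :
    (140 * bb lam q w n + 1) * ((200 / lam) ^ (q - n)) ^ 2 ≤
      281 * ((lam + 4) * (200 / lam) ^ 2) ^ (q - n) := by
  obtain ⟨d0, d1, d2, e0, e1⟩ := dl_facts hl
  have hl0 : 0 < lam := by linarith
  set d := 200 / lam with hd
  have hd1 : d ≤ 1 := d1.trans (by norm_num)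
  have hL1 : 1 ≤ lam + 4 := by linarith
  have hsq : (d ^ (q - n)) ^ 2 = (d ^ 2) ^ (q - n) := by rw [← pow_mul, ← pow_mul, mul_comm]
  rw [hsq, mul_pow]
  have hX : 0 < (d ^ 2) ^ (q - n) := by positivity
  have h1L : 1 ≤ (lam + 4) ^ (q - n) := one_le_pow₀ hL1
  have key : bb lam q w n ≤ 2 * (lam + 4) ^ (q - n) := by
    unfold bb
    split_ifs with h
    · have h2 : (25 / lam) ^ n ≤ 1 := pow_le_one₀ e0 (by rw [e1]; linarith)
      have h3 : (25 / lam) ^ (q - w - n) ≤ 1 := pow_le_one₀ e0 (by rw [e1]; linarith)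
      have h4 : (lam + 4) ^ w ≤ (lam + 4) ^ (q - n) := pow_le_pow_right₀ hL1 (by omega)
      have h5 : (lam + 4) ^ w * (25 / lam) ^ (q - w - n) ≤ (lam + 4) ^ (q - n) * 1 := by
        gcongr
      linarith
    · exact le_rfl
  calc (140 * bb lam q w n + 1) * (d ^ 2) ^ (q - n)
      ≤ (140 * (2 * (lam + 4) ^ (q - n)) + (lam + 4) ^ (q - n)) * (d ^ 2) ^ (q - n) := by gcongr
    _ = 281 * ((lam + 4) ^ (q - n) * (d ^ 2) ^ (q - n)) := by ring

theorem bb_le (hl : 10 ^ 12 ≤ lam) {n : ℕ} :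
    140 * bb lam q w n + 1 ≤ 281 * (lam + 4) ^ w := by
  obtain ⟨d0, d1, d2, e0, e1⟩ := dl_facts hl
  have hL1 : 1 ≤ lam + 4 := by linarith
  have h1w : 1 ≤ (lam + 4) ^ w := one_le_pow₀ hL1
  have key : bb lam q w n ≤ 2 * (lam + 4) ^ w := by
    unfold bb
    split_ifs with h
    · have h2 : (25 / lam) ^ n ≤ 1 := pow_le_one₀ e0 (by rw [e1]; linarith)
      have h3 : (25 / lam) ^ (q - w - n) ≤ 1 := pow_le_one₀ e0 (by rw [e1]; linarith)
      have h5 : (lam + 4) ^ w * (25 / lam) ^ (q - w - n) ≤ (lam + 4) ^ w * 1 := by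
        gcongr
      linarith
    · have h4 : (lam + 4) ^ (q - n) ≤ (lam + 4) ^ w := pow_le_pow_right₀ hL1 (by omega)
      linarith
  linarith

/-- the total sum times the product -/
theorem bbT (hl : 10 ^ 12 ≤ lam) (hq : 4 * w + 10 ≤ q) :
    (200 / lam) ^ (q - 1) * ∑ n ∈ Finset.Ico 1 q, (140 * bb lam q w n + 1) ≤ 1 := by
  obtain ⟨d0, d1, d2, e0, e1⟩ := dl_facts hl
  have hl0 : 0 < lam := by linarith
  set d := 200 / lam with hd
  have hd1 : d ≤ 1 := d1.trans (by norm_num)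
  have hm0 : 0 ≤ (lam + 4) * d ^ 2 := by positivity
  have hm1 : (lam + 4) * d ^ 2 ≤ 1 := d2.trans (by norm_num)
  have h1 : ∑ n ∈ Finset.Ico 1 q, (140 * bb lam q w n + 1) ≤ ((q - 1 : ℕ) : ℝ) * (281 * (lam + 4) ^ w) := by
    refine (Finset.sum_le_card_nsmul _ _ (281 * (lam + 4) ^ w) fun n _ => bb_le hl).trans ?_
    rw [Nat.card_Ico, nsmul_eq_mul]
  obtain ⟨e, he⟩ : ∃ e : ℕ, e = q - 1 - 2 * w := ⟨_, rfl⟩
  have he1 : q - 1 = 2 * w + e := by omega
  have he2 : 1 ≤ e := by omega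
  have he3 : ((q - 1 : ℕ) : ℝ) ≤ 2 * 2 ^ e := by
    have h2 : q - 1 ≤ 2 * 2 ^ e := by
      have := Nat.lt_two_pow_self (n := e)
      omega
    exact_mod_cast h2
  calc d ^ (q - 1) * ∑ n ∈ Finset.Ico 1 q, (140 * bb lam q w n + 1)
      ≤ d ^ (q - 1) * (2 * 2 ^ e * (281 * (lam + 4) ^ w)) := by
        apply mul_le_mul_of_nonneg_left _ (by positivity)
        refine h1.trans ?_
        gcongr
    _ = ((lam + 4) * d ^ 2) ^ w * (562 * (2 * d) ^ e) := by
        rw [he1, pow_add, pow_mul, mul_pow, mul_pow]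
        ring
    _ ≤ 1 * (562 * (2 * d)) := by
        have h5 := pow_le_one₀ hm0 hm1 (n := w)
        have h6 : (2 * d) ^ e ≤ 2 * d := by
          have h7 : (2 * d) ^ e ≤ (2 * d) ^ 1 :=
            pow_le_pow_of_le_one (by positivity) (by linarith) he2
          rwa [pow_one] at h7
        gcongr
    _ ≤ 1 := by linarith

end

end Pool.Agent.MP31f1e8.KLF
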