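import Pool.Agent.Lib.MP_31f1e8_mp.KLF.Well

/-!
KLF-Clo. Continuity of the potential in frequency and phase; compactness of the set of the
parameters with a decaying solution; inverse Lipschitz map.
-/

namespace Pool.Agent.MP31f1e8.KLF

open Set Filter Topology

/-- The set of the parameters `p` in a compact set with a solution bounded by `B`. -/
theorem compact_par {D' : Set (ℝ × ℝ)} (hD' : IsCompact D') {V : ℝ × ℝ → ℤ → ℝ}
    (hV : ∀ n, ContinuousOn (fun p => V p n) D') (e1 e2 : ℝ) (B : ℤ → ℝ) :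
    IsCompact {p : ℝ × ℝ | p ∈ D' ∧ ∃ E ∈ Icc e1 e2, ∃ w : ℤ → ℝ, w 0 = 1 ∧ (∀ m, |w m| ≤ B m) ∧
      ∀ n, w (n + 1) + w (n - 1) + (V p n - E) * w n = 0} := by
  classical
  obtain ⟨C, hC⟩ : ∃ C : Set ((ℝ × ℝ) × (ℝ × (ℤ → ℝ))), C = D' ×ˢ (Icc e1 e2 ×ˢ
    Set.pi univ (fun m => Icc (-B m) (B m))) := ⟨_, rfl⟩
  have hCc : IsCompact C := by
    rw [hC]
    exact hD'.prod (isCompact_Icc.prod (isCompact_univ_pi fun m => isCompact_Icc))
  have hCcl : IsClosed C := hCc.isClosed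
  have hw : ∀ m : ℤ, Continuous fun y : (ℝ × ℝ) × (ℝ × (ℤ → ℝ)) => y.2.2 m := fun m =>
    (continuous_apply m).comp (continuous_snd.comp continuous_snd)
  have hE : Continuous fun y : (ℝ × ℝ) × (ℝ × (ℤ → ℝ)) => y.2.1 :=
    continuous_fst.comp continuous_snd
  have hVC : ∀ n, ContinuousOn (fun y : (ℝ × ℝ) × (ℝ × (ℤ → ℝ)) => V y.1 n) C := by
    intro n
    refine (hV n).comp continuous_fst.continuousOn ?_
    intro y hy
    rw [hC] at hy
    exact hy.1
  have hcl : IsClosed (C ∩ ({y | y.2.2 0 = 1} ∩ ⋂ n : ℤ,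
      (C ∩ (fun y : (ℝ × ℝ) × (ℝ × (ℤ → ℝ)) => y.2.2 (n + 1) + y.2.2 (n - 1) +
        (V y.1 n - y.2.1) * y.2.2 n) ⁻¹' {0}))) := by
    refine hCcl.inter (IsClosed.inter ?_ (isClosed_iInter fun n => ?_))
    · exact isClosed_eq (hw 0) continuous_const
    · refine ContinuousOn.preimage_isClosed_of_isClosed ?_ hCcl isClosed_singleton
      exact ((hw (n + 1)).continuousOn.add (hw (n - 1)).continuousOn).add
        (((hVC n).sub hE.continuousOn).mul (hw n).continuousOn)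
  have hK := hCc.of_isClosed_subset hcl inter_subset_left
  have him := hK.image (continuous_fst)
  convert him using 1
  ext p
  constructor
  · rintro ⟨hp, E, hE, w, h0, hB, heq⟩
    have hmem : ((p, (E, w)) : (ℝ × ℝ) × (ℝ × (ℤ → ℝ))) ∈ C := by
      rw [hC]
      exact ⟨hp, hE, fun m _ => abs_le.1 (hB m)⟩
    refine ⟨(p, (E, w)), ⟨hmem, h0, mem_iInter.2 fun n => ⟨hmem, ?_⟩⟩, rfl⟩
    exact heq n
  · rintro ⟨⟨p', E, w⟩, ⟨hmem, h0, h⟩, rfl⟩
    have hmem' := hmem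
    rw [hC] at hmem'
    refine ⟨hmem'.1, E, hmem'.2.1, w, h0, fun m => abs_le.2 (hmem'.2.2 m (mem_univ m)), fun n => ?_⟩
    exact (mem_iInter.1 h n).2

/-- continuity of `X` in frequency and phase -/
theorem Kam.continuousOn {kap as : ℝ} {D : Set ℝ} {H : ℕ → ℕ → ℝ} {X : ℝ → ℝ → ℝ} {a : ℝ → ℝ}
    {Cs : ℝ} (h : Kam kap as D H X a Cs) (h7 : ∀ om ∈ D, ∀ t t', |X om t - X om t'| ≤ |t - t'|) :
    ContinuousOn (fun p : ℝ × ℝ => X p.1 p.2) (D ×ˢ univ) := by
  have hlip : LipschitzOnWith (Real.toNNReal (|Cs| + 1)) (fun p : ℝ × ℝ => X p.1 p.2) (D ×ˢ univ) := by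
    refine LipschitzOnWith.of_dist_le_mul fun p hp p' hp' => ?_
    rw [Real.coe_toNNReal _ (by positivity), Real.dist_eq]
    have h1 := h.cont p.1 hp.1 p'.1 hp'.1 p.2
    have h2 := h7 p'.1 hp'.1 p.2 p'.2
    have h3 : |p.1 - p'.1| ≤ dist p p' := by
      rw [← Real.dist_eq]
      exact (le_max_left _ _ : dist p.1 p'.1 ≤ max (dist p.1 p'.1) (dist p.2 p'.2))
    have h4 : |p.2 - p'.2| ≤ dist p p' := by
      rw [← Real.dist_eq]
      exact (le_max_right _ _ : dist p.2 p'.2 ≤ max (dist p.1 p'.1) (dist p.2 p'.2))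
    have h5 := abs_sub_le (X p.1 p.2) (X p'.1 p.2) (X p'.1 p'.2)
    have h6 : Cs * |p.1 - p'.1| ≤ |Cs| * dist p p' := by
      calc Cs * |p.1 - p'.1| ≤ |Cs| * |p.1 - p'.1| := by gcongr; exact le_abs_self _
        _ ≤ _ := by gcongr
    linarith
  exact hlip.continuousOn

section

variable {lam eta kap : ℝ} {q w : ℕ} {m : ℕ → ℤ} {sg tau sigma Xr E0 : ℝ} {kp : ℕ → ℝ}
    {x : ℕ → ℝ → ℝ → ℝ} {H : ℕ → ℕ → ℝ}

theorem Cell.continuousOn (h : Cell lam eta kap q w m sg tau sigma Xr E0 kp x H) (hl : 0 < lam)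
    {n : ℕ} (hn : n ≤ q) : ContinuousOn (fun p : ℝ × ℝ => x n p.1 p.2)
      (Icc (-1) 1 ×ˢ Icc (-1) 1) := by
  obtain ⟨C1, hC1, hc1⟩ : ∃ C1 : ℝ, 0 ≤ C1 ∧ ∀ u ∈ Icc (-1 : ℝ) 1, ∀ v ∈ Icc (-1 : ℝ) 1,
      ∀ u' ∈ Icc (-1 : ℝ) 1, |x n u u' - x n v u'| ≤ C1 * |u - v| := by
    have ht := h.tau0
    rcases le_total n w with h1 | h1
    · refine ⟨(lam + 4) ^ (w - n) * (2 * tau * |sg|), by positivity, fun u hu v hv u' hu' => ?_⟩
      refine (h.left u hu v hv u' hu' n h1).trans (le_of_eq ?_)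
      ring
    · refine ⟨(25 / lam) ^ (n - w) * (2 * tau * |sg|), by positivity, fun u hu v hv u' hu' => ?_⟩
      refine (h.right u hu v hv u' hu' n h1 hn).trans (le_of_eq ?_)
      ring
  obtain ⟨C2, hC2, hc2⟩ : ∃ C2 : ℝ, 0 ≤ C2 ∧ ∀ u ∈ Icc (-1 : ℝ) 1, ∀ u' ∈ Icc (-1 : ℝ) 1,
      ∀ v' ∈ Icc (-1 : ℝ) 1, |x n u u' - x n u v'| ≤ C2 * |u' - v'| := by
    refine ⟨(25 / lam) ^ (q - n) * |sg|, by positivity, fun u hu v hv u' hu' => ?_⟩
    refine (h.fut u hu v hv u' hu' n hn).trans (le_of_eq ?_)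
    ring
  have hlip : LipschitzOnWith (Real.toNNReal (C1 + C2)) (fun p : ℝ × ℝ => x n p.1 p.2)
      (Icc (-1) 1 ×ˢ Icc (-1) 1) := by
    refine LipschitzOnWith.of_dist_le_mul fun p hp p' hp' => ?_
    rw [Real.coe_toNNReal _ (by positivity), Real.dist_eq]
    have h1 := hc1 p.1 hp.1 p'.1 hp'.1 p.2 hp.2
    have h2 := hc2 p'.1 hp'.1 p.2 hp.2 p'.2 hp'.2
    have h3 : |p.1 - p'.1| ≤ dist p p' := by
      rw [← Real.dist_eq]
      exact (le_max_left _ _ : dist p.1 p'.1 ≤ max (dist p.1 p'.1) (dist p.2 p'.2))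
    have h4 : |p.2 - p'.2| ≤ dist p p' := by
      rw [← Real.dist_eq]
      exact (le_max_right _ _ : dist p.2 p'.2 ≤ max (dist p.1 p'.1) (dist p.2 p'.2))
    have h5 := abs_sub_le (x n p.1 p.2) (x n p'.1 p.2) (x n p'.1 p'.2)
    have h6 : C1 * |p.1 - p'.1| ≤ C1 * dist p p' := by gcongr
    have h7 : C2 * |p.2 - p'.2| ≤ C2 * dist p p' := by gcongr
    linarith
  exact hlip.continuousOn

/-- The map `(u, u') ↦ (x_0, x_1)` is inverse Lipschitz. -/
theorem Cell.inv (h : Cell lam eta kap q w m sg tau sigma Xr E0 kp x H) (hl : 0 < lam)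
    {u v u' v' : ℝ} (hu : u ∈ Icc (-1 : ℝ) 1) (hv : v ∈ Icc (-1 : ℝ) 1) (hu' : u' ∈ Icc (-1 : ℝ) 1)
    (hv' : v' ∈ Icc (-1 : ℝ) 1) :
    |sg| * (|u - v| + |u' - v'|) ≤
      2 * (lam + 3) ^ q * max (|x 1 u u' - x 1 v v'|) (|x 0 u u' - x 0 v v'|) := by
  set d : ℕ → ℝ := fun n => |x n u u' - x n v v'| with hd
  set M := max (d 1) (d 0) with hM
  have hM0 : 0 ≤ M := (abs_nonneg _).trans (le_max_left (d 1) (d 0))
  have hstep : ∀ n, 1 ≤ n → n < q → d (n + 1) ≤ (lam + 2) * d n + d (n - 1) := by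
    intro n h1 h2
    have e1 := h.eqn u hu u' hu' n h1 h2
    have e2 := h.eqn v hv v' hv' n h1 h2
    have e3 : x (n + 1) u u' - x (n + 1) v v' = 2 * (x n u u' - x n v v') +
        lam * (Real.sin (x n u u') - Real.sin (x n v v')) - (x (n - 1) u u' - x (n - 1) v v') := by
      linarith
    have h3 : |Real.sin (x n u u') - Real.sin (x n v v')| ≤ d n := by
      have := Real.lipschitzWith_sin.dist_le_mul (x n u u') (x n v v')
      simpa [Real.dist_eq] using this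
    show |x (n + 1) u u' - x (n + 1) v v'| ≤ _
    rw [e3]
    calc _ ≤ |2 * (x n u u' - x n v v') + lam * (Real.sin (x n u u') - Real.sin (x n v v'))| +
          |x (n - 1) u u' - x (n - 1) v v'| := abs_sub _ _
      _ ≤ |2 * (x n u u' - x n v v')| + |lam * (Real.sin (x n u u') - Real.sin (x n v v'))| +
          |x (n - 1) u u' - x (n - 1) v v'| := by gcongr; exact abs_add_le _ _
      _ ≤ 2 * d n + lam * d n + d (n - 1) := by
          rw [abs_mul, abs_mul, abs_of_pos (by norm_num : (0:ℝ) < 2), abs_of_pos hl]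
          gcongr
      _ = _ := by ring
  have hL1 : 1 ≤ lam + 3 := by linarith
  have hind : ∀ n, n + 1 ≤ q → d n ≤ (lam + 3) ^ n * M ∧ d (n + 1) ≤ (lam + 3) ^ (n + 1) * M := by
    intro n
    induction n with
    | zero =>
      intro _
      have h0 : d 0 ≤ M := le_max_right _ _
      refine ⟨by rwa [pow_zero, one_mul], ?_⟩
      rw [zero_add, pow_one]
      have h1 : d 1 ≤ M := le_max_left _ _
      nlinarith
    | succ n ih =>
      intro hn
      obtain ⟨i1, i2⟩ := ih (by omega)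
      refine ⟨i2, ?_⟩
      have h1 := hstep (n + 1) (by omega) (by omega)
      rw [Nat.add_sub_cancel] at h1
      have h2 : (lam + 3) ^ n * M ≤ (lam + 3) ^ (n + 1) * M := by
        apply mul_le_mul_of_nonneg_right _ hM0
        exact pow_le_pow_right₀ hL1 (Nat.le_succ n)
      calc d (n + 1 + 1) ≤ (lam + 2) * d (n + 1) + d n := h1
        _ ≤ (lam + 2) * ((lam + 3) ^ (n + 1) * M) + (lam + 3) ^ (n + 1) * M := by
          have : 0 ≤ lam + 2 := by linarith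
          gcongr
          linarith
        _ = (lam + 3) ^ (n + 1 + 1) * M := by ring
  have hqw := h.qw
  have hq : d q ≤ (lam + 3) ^ q * M := by
    have := (hind (q - 1) (by omega)).2
    rwa [Nat.sub_add_cancel (by omega)] at this
  have h0 : d 0 ≤ (lam + 3) ^ q * M := by
    have h1 : d 0 ≤ M := le_max_right _ _
    have h2 : 1 ≤ (lam + 3) ^ q := one_le_pow₀ hL1
    nlinarith
  have e0 : d 0 = |sg| * |u - v| := by
    rw [hd]
    simp only
    rw [h.x0 u hu u' hu', h.x0 v hv v' hv', ← abs_mul]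
    congr 1
    ring
  have eq : d q = |sg| * |u' - v'| := by
    rw [hd]
    simp only
    rw [h.xq u hu u' hu', h.xq v hv v' hv', ← abs_mul]
    congr 1
    ring
  have : |sg| * (|u - v| + |u' - v'|) = d 0 + d q := by rw [e0, eq]; ring
  rw [this]
  linarith

end

end Pool.Agent.MP31f1e8.KLF
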