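import Pool.Agent.Lib.MP_31f1e8_mp.Defs

/-!
KLF-Eig. A decaying solution along an orbit gives an eigenvalue at all points of the orbit.
-/

namespace Pool.Agent.MP31f1e8.KLF

open Set MeasureTheory

theorem summable_exp_int {rho : ℝ} (hr : 0 < rho) (j : ℤ) :
    Summable fun n : ℤ => (Real.exp (-(rho * |((n + j : ℤ) : ℝ)|))) ^ 2 := by
  have hq0 : 0 ≤ Real.exp (-(2 * rho)) := (Real.exp_pos _).le
  have hq1 : Real.exp (-(2 * rho)) < 1 := by
    rw [Real.exp_lt_one_iff]
    linarith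
  have h1 : Summable fun n : ℤ => (Real.exp (-(2 * rho))) ^ n.natAbs := by
    apply Summable.of_nat_of_neg
    · simpa using summable_geometric_of_lt_one hq0 hq1
    · simpa using summable_geometric_of_lt_one hq0 hq1
  have h2 := h1.comp_injective (add_left_injective j)
  refine h2.congr fun n => ?_
  show Real.exp (-(2 * rho)) ^ (n + j).natAbs = _
  rw [← Real.exp_nat_mul, ← Real.exp_nat_mul]
  congr 1
  have : (((n + j).natAbs : ℕ) : ℝ) = |((n + j : ℤ) : ℝ)| := by
    rw [Nat.cast_natAbs, Int.cast_abs]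
  rw [this]
  push_cast
  ring

theorem eig_of_decay {lam : ℝ} {x : ℤ → ℝ} {k : ℤ → ℤ}
    (hx : ∀ n, x (n + 1) + x (n - 1) = 2 * x n + lam * Real.sin (x n) - 2 * Real.pi * k n)
    {u : ℤ → ℝ} {E M rho : ℝ} (hr : 0 < rho) {i : ℤ} (hi : u i ≠ 0)
    (hub : ∀ n : ℤ, |u n| ≤ M * Real.exp (-(rho * |(n : ℝ)|)))
    (hu : ∀ n, u (n + 1) + u (n - 1) + lam * Real.cos (x n) * u n = E * u n) (j : ℤ) :
    (pointSpectrum lam ((x j : Real.Angle), (x (j - 1) : Real.Angle))).Nonempty := by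
  have hmem : Memℓp (fun n : ℤ => (u (n + j) : ℂ)) 2 := by
    apply memℓp_gen
    have h3 := (summable_exp_int hr j).mul_left (M ^ 2)
    refine h3.of_nonneg_of_le (fun n => by positivity) fun n => ?_
    have h2 := hub (n + j)
    simp only [ENNReal.toReal_ofNat, Complex.norm_real, Real.norm_eq_abs, Real.rpow_ofNat]
    calc |u (n + j)| ^ 2 ≤ (M * Real.exp (-(rho * |((n + j : ℤ) : ℝ)|))) ^ 2 := by gcongr
      _ = M ^ 2 * Real.exp (-(rho * |((n + j : ℤ) : ℝ)|)) ^ 2 := by rw [mul_pow]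
  refine ⟨E - 2, ⟨fun n => (u (n + j) : ℂ), hmem⟩, ?_, ?_⟩
  · intro h
    have h1 : ((⟨fun n => (u (n + j) : ℂ), hmem⟩ : lp (fun _ : ℤ => ℂ) 2) : ℤ → ℂ) (i - j) = 0 := by
      rw [h]; rfl
    have h2 : ((u (i - j + j) : ℝ) : ℂ) = 0 := h1
    rw [sub_add_cancel] at h2
    exact hi (by exact_mod_cast h2)
  · intro n
    have hz : (stdMap lam ^ n) ((x j : Real.Angle), (x (j - 1) : Real.Angle)) =
        ((x (n + j) : Real.Angle), (x (n - 1 + j) : Real.Angle)) := by
      have h1 := stdMap_zpow (x := fun n => x (n + j)) (k := fun n => k (n + j)) (lam := lam) (by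
        intro n
        have h2 := hx (n + j)
        have e1 : n + 1 + j = n + j + 1 := by ring
        have e2 : n - 1 + j = n + j - 1 := by ring
        rw [e1, e2]
        exact h2) n
      have e3 : (0 : ℤ) + j = j := zero_add j
      have e4 : (-1 : ℤ) + j = j - 1 := by ring
      rw [e3, e4] at h1
      exact h1
    rw [hz]
    show (u (n + 1 + j) : ℂ) - 2 * (u (n + j) : ℂ) + (u (n - 1 + j) : ℂ) +
      ((lam * (x (n + j) : Real.Angle).cos : ℝ) : ℂ) * (u (n + j) : ℂ) =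
      ((E - 2 : ℝ) : ℂ) * (u (n + j) : ℂ)
    rw [Real.Angle.cos_coe]
    have e1 : n + 1 + j = n + j + 1 := by ring
    have e2 : n - 1 + j = n + j - 1 := by ring
    rw [e1, e2]
    have h3 : u (n + j + 1) - 2 * u (n + j) + u (n + j - 1) + lam * Real.cos (x (n + j)) * u (n + j) =
        (E - 2) * u (n + j) := by linarith [hu (n + j)]
    exact_mod_cast h3

end Pool.Agent.MP31f1e8.KLF
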