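import Pool.Agent.Lib.MP_31f1e8_mp.KLF.Well
import Pool.Agent.Lib.MP_31f1e8_mp.KLF.Sums
import Pool.Agent.Lib.MP_31f1e8_mp.KLE.Coef

/-!
KLF-Feed. A cell and an invariant curve give the block hypotheses `KLE.Blk`.
-/

namespace Pool.Agent.MP31f1e8.KLF

open Set Real

/-- the potential at the site `w + n` seen from the phase of the well -/
noncomputable def vv (lam : ℝ) (q w : ℕ) (x : ℕ → ℝ → ℝ → ℝ) (u : ℝ → ℝ) (om : ℝ) (n : ℕ) (t : ℝ) : ℝ :=
  if w + n < q then lam * cos (x (w + n) (u t) (u (t + om)))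
  else lam * cos (x (w + n - q) (u (t + om)) (u (t + 2 * om)))

theorem prod_le_pow' {s : Finset ℕ} {f : ℕ → ℝ} {r : ℝ} (h0 : ∀ i ∈ s, 0 ≤ f i)
    (h1 : ∀ i ∈ s, f i ≤ r) : ∏ i ∈ s, f i ≤ r ^ s.card :=
  (Finset.prod_le_prod h0 h1).trans (by rw [Finset.prod_const])

/-- bijection of the barriers -/
theorem prod_reindex {q w : ℕ} (hw : w < q) (f : ℕ → ℝ) :
    ∏ i ∈ Finset.Ico 1 q, f ((w + i) % q) = ∏ n ∈ (Finset.range q).erase w, f n := by
  refine Finset.prod_bij (fun i _ => (w + i) % q) ?_ ?_ ?_ ?_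
  · intro i hi
    rw [Finset.mem_Ico] at hi
    rw [Finset.mem_erase, Finset.mem_range]
    refine ⟨?_, Nat.mod_lt _ (by omega)⟩
    intro h
    rcases lt_or_ge (w + i) q with h1 | h1
    · rw [Nat.mod_eq_of_lt h1] at h
      omega
    · rw [Nat.mod_eq_sub_mod h1, Nat.mod_eq_of_lt (by omega)] at h
      omega
  · intro i hi j hj h
    rw [Finset.mem_Ico] at hi hj
    have h' : (w + i) % q = (w + j) % q := h
    rcases lt_or_ge (w + i) q with h1 | h1 <;> rcases lt_or_ge (w + j) q with h2 | h2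
    · rw [Nat.mod_eq_of_lt h1, Nat.mod_eq_of_lt h2] at h'
      omega
    · rw [Nat.mod_eq_of_lt h1, Nat.mod_eq_sub_mod h2, Nat.mod_eq_of_lt (by omega)] at h'
      omega
    · rw [Nat.mod_eq_of_lt h2, Nat.mod_eq_sub_mod h1, Nat.mod_eq_of_lt (by omega)] at h'
      omega
    · rw [Nat.mod_eq_sub_mod h1, Nat.mod_eq_sub_mod h2, Nat.mod_eq_of_lt (by omega),
        Nat.mod_eq_of_lt (by omega)] at h'
      omega
  · intro n hn
    rw [Finset.mem_erase, Finset.mem_range] at hn
    rcases lt_or_ge w n with h1 | h1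
    · refine ⟨n - w, Finset.mem_Ico.2 ⟨by omega, by omega⟩, ?_⟩
      rw [Nat.mod_eq_of_lt (by omega)]
      omega
    · refine ⟨n + q - w, Finset.mem_Ico.2 ⟨by omega, by omega⟩, ?_⟩
      rw [Nat.mod_eq_sub_mod (by omega), Nat.mod_eq_of_lt (by omega)]
      omega
  · intro i hi
    rfl

section

variable {lam eta kap : ℝ} {q w : ℕ} {m : ℕ → ℤ} {sg tau sigma Xr E0 : ℝ} {kp : ℕ → ℝ}
    {x : ℕ → ℝ → ℝ → ℝ} {H : ℕ → ℕ → ℝ} {u : ℝ → ℝ} {a om L : ℝ}

theorem site_facts {n : ℕ} (hw : w < q) (h1 : 1 ≤ n) (h2 : n < q) :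
    (w + n) % q < q ∧ (w + n) % q ≠ w ∧
      ((w + n < q ∧ (w + n) % q = w + n) ∨ (q ≤ w + n ∧ (w + n) % q = w + n - q)) := by
  rcases lt_or_ge (w + n) q with h | h
  · rw [Nat.mod_eq_of_lt h]
    exact ⟨h, by omega, Or.inl ⟨h, rfl⟩⟩
  · rw [Nat.mod_eq_sub_mod h, Nat.mod_eq_of_lt (by omega)]
    exact ⟨by omega, by omega, Or.inr ⟨h, rfl⟩⟩

theorem Cell.kap_facts (h : Cell lam eta kap q w m sg tau sigma Xr E0 kp x H) (hl : 10 ^ 12 ≤ lam)
    {n : ℕ} (h1 : n < q) (h2 : n ≠ w) : 4 ≤ kp n ∧ 0 ≤ (kp n)⁻¹ ∧ (kp n)⁻¹ ≤ 200 / lam := by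
  have hl0 : 0 < lam := by linarith
  have h3 := h.kp0 n h1 h2
  have h4 : 4 ≤ lam / 200 := by linarith
  refine ⟨h4.trans h3, inv_nonneg.2 (by linarith), ?_⟩
  rw [inv_le_comm₀ (by linarith) (by positivity), inv_div]
  exact h3

theorem vv_per (hu : Cur sigma a u) (n : ℕ) (t : ℝ) :
    vv lam q w x u om n (t + 1) = vv lam q w x u om n t := by
  unfold vv
  have e1 : t + 1 + om = t + om + 1 := by ring
  have e2 : t + 1 + 2 * om = t + 2 * om + 1 := by ring
  rw [e1, e2, hu.per, hu.per, hu.per]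

/-- the Lipschitz constants of the barriers -/
theorem vv_lip (h : Cell lam eta kap q w m sg tau sigma Xr E0 kp x H) (hl : 10 ^ 12 ≤ lam)
    (hu : Cur sigma a u) {n : ℕ} (hn1 : 1 ≤ n) (hn : n < q) (t t' : ℝ) :
    |vv lam q w x u om n t - vv lam q w x u om n t'| ≤
      140 * (lam * tau * |sg| * a / 10) * bb lam q w n * |t - t'| := by
  have hl0 : 0 < lam := by linarith
  have hs : 0 < |sg| := abs_pos.2 h.sg0
  have ht := h.tau0
  have ha := hu.a0
  have hqw := h.qw
  have hw1 := h.w1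
  have htau := h.tau_ge
  have hab : 0 ≤ |t - t'| := abs_nonneg _
  have e25 : 0 ≤ 25 / lam := by positivity
  unfold vv bb
  split_ifs with hc
  · rw [← mul_sub, abs_mul, abs_of_pos hl0]
    have h1 := h.right _ (hu.mem t) _ (hu.mem t') _ (hu.mem (t + om)) (w + n) (by omega) hc.le
    have h2 := h.fut _ (hu.mem t') _ (hu.mem (t + om)) _ (hu.mem (t' + om)) (w + n) hc.le
    have h3 := hu.lip' t t'
    have h4 := hu.lip' (t + om) (t' + om)
    have e : t + om - (t' + om) = t - t' := by ring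
    rw [e] at h4
    rw [show w + n - w = n by omega] at h1
    rw [show q - (w + n) = q - w - n by omega] at h2
    have h5 : |cos (x (w + n) (u t) (u (t + om))) - cos (x (w + n) (u t') (u (t' + om)))| ≤
        (25 / lam) ^ n * (2 * tau * |sg| * (7 * a * |t - t'|)) +
          (25 / lam) ^ (q - w - n) * (|sg| * (7 * a * |t - t'|)) := by
      refine (abs_cos_sub_le _ _).trans ((abs_sub_le _ (x (w + n) (u t') (u (t + om))) _).trans ?_)
      refine add_le_add (h1.trans ?_) (h2.trans ?_)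
      · gcongr
      · gcongr
    have h6 : (25 / lam) ^ (q - w - n) ≤ 2 * tau * (lam + 4) ^ w * (25 / lam) ^ (q - w - n) := by
      have h7 : 0 ≤ (25 / lam) ^ (q - w - n) := pow_nonneg e25 _
      nlinarith
    have h8 : (25 / lam) ^ (q - w - n) * (|sg| * (7 * a * |t - t'|)) ≤
        2 * tau * (lam + 4) ^ w * (25 / lam) ^ (q - w - n) * (|sg| * (7 * a * |t - t'|)) := by
      gcongr
    have h9 := mul_le_mul_of_nonneg_left (h5.trans (add_le_add_right h8 _)) hl0.le
    refine h9.trans (le_of_eq ?_)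
    ring
  · rw [← mul_sub, abs_mul, abs_of_pos hl0]
    have h1 := h.left _ (hu.mem (t + om)) _ (hu.mem (t' + om)) _ (hu.mem (t + 2 * om)) (w + n - q)
      (by omega)
    have h2 := h.fut _ (hu.mem (t' + om)) _ (hu.mem (t + 2 * om)) _ (hu.mem (t' + 2 * om)) (w + n - q)
      (by omega)
    have h3 := hu.lip' (t + om) (t' + om)
    have h4 := hu.lip' (t + 2 * om) (t' + 2 * om)
    have e : t + om - (t' + om) = t - t' := by ring
    have e' : t + 2 * om - (t' + 2 * om) = t - t' := by ring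
    rw [e] at h3
    rw [e'] at h4
    rw [show w - (w + n - q) = q - n by omega] at h1
    have h6 : (25 / lam) ^ (q - (w + n - q)) ≤ tau := by
      have h7 : 25 / lam ≤ 1 := by
        rw [div_le_one hl0]
        linarith
      have h8 : (25 / lam) ^ (q - (w + n - q)) ≤ (25 / lam) ^ (q - w) :=
        pow_le_pow_of_le_one e25 h7 (by omega)
      have h9 := h.fut_small hl
      linarith
    have h1L : 1 ≤ (lam + 4) ^ (q - n) := one_le_pow₀ (by linarith)
    have h5 : |cos (x (w + n - q) (u (t + om)) (u (t + 2 * om))) -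
        cos (x (w + n - q) (u (t' + om)) (u (t' + 2 * om)))| ≤
        (lam + 4) ^ (q - n) * (2 * tau * |sg| * (7 * a * |t - t'|)) +
          tau * (|sg| * (7 * a * |t - t'|)) := by
      refine (abs_cos_sub_le _ _).trans
        ((abs_sub_le _ (x (w + n - q) (u (t' + om)) (u (t + 2 * om))) _).trans ?_)
      refine add_le_add (h1.trans ?_) (h2.trans ?_)
      · gcongr
      · gcongr
    have h8 : tau * (|sg| * (7 * a * |t - t'|)) ≤
        (lam + 4) ^ (q - n) * (2 * tau * |sg| * (7 * a * |t - t'|)) := by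
      have h9 : 0 ≤ tau * (|sg| * (7 * a * |t - t'|)) := by positivity
      nlinarith
    have h9 := mul_le_mul_of_nonneg_left (h5.trans (add_le_add_right h8 _)) hl0.le
    refine h9.trans (le_of_eq ?_)
    ring

/-- the barriers -/
theorem vv_bar (h : Cell lam eta kap q w m sg tau sigma Xr E0 kp x H)
    (hu : Cur sigma a u) {n : ℕ} (hn1 : 1 ≤ n) (hn : n < q) (t E : ℝ)
    (hE : |E - lam * cos (x w 0 0)| ≤ 1) :
    kp ((w + n) % q) + 1 ≤ |vv lam q w x u om n t - E| := by
  have hqw := h.qw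
  have hw : w < q := by omega
  obtain ⟨f1, f2, f3⟩ := site_facts hw hn1 hn
  have h0 := h.well 0 zero_mem' 0 zero_mem'
  have hE2 : |E - E0| ≤ 3 / 2 := by
    have := abs_sub_le E (lam * cos (x w 0 0)) E0
    linarith
  have key : kp ((w + n) % q) + 3 ≤ |vv lam q w x u om n t - E0| := by
    unfold vv
    rcases f3 with ⟨h1, h2⟩ | ⟨h1, h2⟩
    · rw [if_pos h1]
      rw [h2] at f1 f2 ⊢
      exact h.barr _ (hu.mem _) _ (hu.mem _) _ f1 f2
    · rw [if_neg (by omega)]
      rw [h2] at f1 f2 ⊢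
      exact h.barr _ (hu.mem _) _ (hu.mem _) _ f1 f2
  have := abs_sub_le (vv lam q w x u om n t) E E0
  linarith

theorem blk (h : Cell lam eta kap q w m sg tau sigma Xr E0 kp x H) (hl : 10 ^ 12 ≤ lam)
    (hu : Cur sigma a u) (hL : 192 * 16 * exp (-(L / 2)) ≤ 1 / 16)
    (hkap : kap * 10 ≤ a * exp (-L) / 128) :
    KLE.Blk (1 / 16) 16 L (-(1 / 16)) (1 / 16) (3 / 5) (9 / 10) (11 / 10) (7 / 5)
      (lam * tau * |sg| * a / 10) (lam * cos (x w 0 0)) q (vv lam q w x u om)
      (fun t => (lam * cos (x w (u t) (u (t + om))) - lam * cos (x w 0 0)) / (lam * tau * |sg| * a / 10))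
      (fun n => kp ((w + n) % q)) (fun n => 140 * (lam * tau * |sg| * a / 10) * bb lam q w n) := by
  have hl0 : 0 < lam := by linarith
  have hs : 0 < |sg| := abs_pos.2 h.sg0
  have ht := h.tau0
  have ha := hu.a0
  have ha1 := hu.a1
  have hqw := h.qw
  have hw1 := h.w1
  have hw : w < q := by omega
  have hwf := h.wf hl
  have hK := hwf.K0
  have hst := h.sgtau
  have hA : 0 < lam * tau * |sg| * a / 10 := by positivity
  obtain ⟨d0, d1, d2, e0, e1⟩ := dl_facts hl
  have hkf : ∀ i, 1 ≤ i → i < q → 4 ≤ kp ((w + i) % q) ∧ 0 ≤ (kp ((w + i) % q))⁻¹ ∧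
      (kp ((w + i) % q))⁻¹ ≤ 200 / lam := by
    intro i h1 h2
    obtain ⟨f1, f2, -⟩ := site_facts hw h1 h2
    exact h.kap_facts hl f1 f2
  constructor
  case hc => norm_num
  case hc1 => norm_num
  case hC => norm_num
  case hL => exact hL
  case hz1 => norm_num
  case hz2 => norm_num
  case o1 => norm_num
  case o2 => norm_num
  case o3 => norm_num
  case o4 => norm_num
  case hq => omega
  case hA => exact hA
  case hA1 => nlinarith
  case perv => exact fun n t => vv_per hu n t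
  case perg =>
    intro t
    show (_ - _) / _ = (_ - _) / _
    have e1 : t + 1 + om = t + om + 1 := by ring
    rw [e1, hu.per, hu.per]
  case v0 =>
    intro t
    show vv lam q w x u om 0 t = _
    unfold vv
    rw [add_zero, if_pos hw]
    field_simp
    ring
  case lipg =>
    intro t t'
    show |(_ - _) / _ - (_ - _) / _| ≤ _
    rw [← sub_div, abs_div, abs_of_pos hA, div_le_iff₀ hA, sub_sub_sub_cancel_right]
    refine (hwf.lip (om := om) hu t t').trans (le_of_eq ?_)
    ring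
  case incA =>
    intro t t' h1 h2 h3
    show _ ≤ (_ - _) / _ - (_ - _) / _
    rw [← sub_div, le_div_iff₀ hA, sub_sub_sub_cancel_right]
    exact hwf.incA (om := om) hu h1 h2 h3
  case decB =>
    intro t t' h1 h2 h3
    show _ ≤ (_ - _) / _ - (_ - _) / _
    rw [← sub_div, le_div_iff₀ hA, sub_sub_sub_cancel_right]
    exact hwf.decB (om := om) hu h1 h2 h3
  case top =>
    intro t h1 h2
    show _ ≤ (_ - _) / _
    rw [le_div_iff₀ hA]
    exact hwf.top (om := om) hu h1 h2
  case bot =>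
    intro t h1 h2
    show (_ - _) / _ ≤ _
    rw [div_le_iff₀ hA]
    exact hwf.bot (om := om) hu h1 (by linarith)
  case kap => exact fun n h1 h2 => (hkf n h1 h2).1
  case bar =>
    intro n h1 h2 t E hE
    exact vv_bar h hu h1 h2 t E hE
  case lipv =>
    intro n h1 h2 t t'
    exact vv_lip h hl hu h1 h2 t t'
  case sumR =>
    have h1 : ∀ n ∈ Finset.Ico 1 q, (140 * (lam * tau * |sg| * a / 10) * bb lam q w n +
        lam * tau * |sg| * a / 10) * (∏ i ∈ Finset.Icc 1 n, (kp ((w + i) % q))⁻¹) ^ 2 ≤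
        (lam * tau * |sg| * a / 10) * (281 * (200 / lam) ^ n) := by
      intro n hn
      rw [Finset.mem_Ico] at hn
      have h2 : ∏ i ∈ Finset.Icc 1 n, (kp ((w + i) % q))⁻¹ ≤ (200 / lam) ^ n := by
        have := prod_le_pow' (s := Finset.Icc 1 n) (f := fun i => (kp ((w + i) % q))⁻¹) (r := 200 / lam)
          (fun i hi => by
            rw [Finset.mem_Icc] at hi
            exact (hkf i hi.1 (by omega)).2.1)
          (fun i hi => by
            rw [Finset.mem_Icc] at hi
            exact (hkf i hi.1 (by omega)).2.2)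
        rwa [Nat.card_Icc, Nat.add_sub_cancel] at this
      have h3 : 0 ≤ ∏ i ∈ Finset.Icc 1 n, (kp ((w + i) % q))⁻¹ := by
        refine Finset.prod_nonneg fun i hi => ?_
        rw [Finset.mem_Icc] at hi
        exact (hkf i hi.1 (by omega)).2.1
      have h4 := bbR hl hqw hn.1 hn.2
      have h5 : 0 ≤ 140 * bb lam q w n + 1 := by
        have := bb_nonneg (q := q) (w := w) hl n
        linarith
      calc _ = (lam * tau * |sg| * a / 10) * ((140 * bb lam q w n + 1) *
            (∏ i ∈ Finset.Icc 1 n, (kp ((w + i) % q))⁻¹) ^ 2) := by ring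
        _ ≤ (lam * tau * |sg| * a / 10) * ((140 * bb lam q w n + 1) * ((200 / lam) ^ n) ^ 2) := by
          gcongr
        _ ≤ _ := by gcongr
    refine (Finset.sum_le_sum h1).trans ?_
    rw [← Finset.mul_sum, ← Finset.mul_sum]
    have h2 := geo1' d0.le (by linarith) q
    nlinarith
  case sumL =>
    have h1 : ∀ n ∈ Finset.Ico 1 q, (140 * (lam * tau * |sg| * a / 10) * bb lam q w n +
        lam * tau * |sg| * a / 10) * (∏ i ∈ Finset.Ico n q, (kp ((w + i) % q))⁻¹) ^ 2 ≤
        (lam * tau * |sg| * a / 10) * (281 * ((lam + 4) * (200 / lam) ^ 2) ^ (q - n)) := by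
      intro n hn
      rw [Finset.mem_Ico] at hn
      have h2 : ∏ i ∈ Finset.Ico n q, (kp ((w + i) % q))⁻¹ ≤ (200 / lam) ^ (q - n) := by
        have := prod_le_pow' (s := Finset.Ico n q) (f := fun i => (kp ((w + i) % q))⁻¹) (r := 200 / lam)
          (fun i hi => by
            rw [Finset.mem_Ico] at hi
            exact (hkf i (by omega) hi.2).2.1)
          (fun i hi => by
            rw [Finset.mem_Ico] at hi
            exact (hkf i (by omega) hi.2).2.2)
        rwa [Nat.card_Ico] at this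
      have h3 : 0 ≤ ∏ i ∈ Finset.Ico n q, (kp ((w + i) % q))⁻¹ := by
        refine Finset.prod_nonneg fun i hi => ?_
        rw [Finset.mem_Ico] at hi
        exact (hkf i (by omega) hi.2).2.1
      have h4 := bbL hl hqw hn.1 hn.2
      have h5 : 0 ≤ 140 * bb lam q w n + 1 := by
        have := bb_nonneg (q := q) (w := w) hl n
        linarith
      calc _ = (lam * tau * |sg| * a / 10) * ((140 * bb lam q w n + 1) *
            (∏ i ∈ Finset.Ico n q, (kp ((w + i) % q))⁻¹) ^ 2) := by ring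
        _ ≤ (lam * tau * |sg| * a / 10) * ((140 * bb lam q w n + 1) * ((200 / lam) ^ (q - n)) ^ 2) := by
          gcongr
        _ ≤ _ := by gcongr
    refine (Finset.sum_le_sum h1).trans ?_
    rw [← Finset.mul_sum, ← Finset.mul_sum]
    have h2 := geo2 (r := (lam + 4) * (200 / lam) ^ 2) (by positivity) (by linarith) q
    nlinarith
  case hop =>
    rw [prod_reindex hw (fun n => (kp n)⁻¹)]
    refine h.hop.trans ?_
    have h1 := mul_le_mul_of_nonneg_left hkap hK.le
    linarith
  case hopT =>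
    have h2 : ∏ i ∈ Finset.Ico 1 q, (kp ((w + i) % q))⁻¹ ≤ (200 / lam) ^ (q - 1) := by
      have := prod_le_pow' (s := Finset.Ico 1 q) (f := fun i => (kp ((w + i) % q))⁻¹) (r := 200 / lam)
        (fun i hi => by
          rw [Finset.mem_Ico] at hi
          exact (hkf i hi.1 hi.2).2.1)
        (fun i hi => by
          rw [Finset.mem_Ico] at hi
          exact (hkf i hi.1 hi.2).2.2)
      rwa [Nat.card_Ico] at this
    have h3 : ∑ n ∈ Finset.Ico 1 q, (140 * (lam * tau * |sg| * a / 10) * bb lam q w n +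
        lam * tau * |sg| * a / 10) =
        (lam * tau * |sg| * a / 10) * ∑ n ∈ Finset.Ico 1 q, (140 * bb lam q w n + 1) := by
      rw [Finset.mul_sum]
      exact Finset.sum_congr rfl fun n _ => by ring
    have h4 : 0 ≤ ∑ n ∈ Finset.Ico 1 q, (140 * bb lam q w n + 1) :=
      Finset.sum_nonneg fun n _ => by
        have := bb_nonneg (q := q) (w := w) hl n
        linarith
    have h5 := bbT hl hqw
    rw [h3]
    calc (∏ i ∈ Finset.Ico 1 q, (kp ((w + i) % q))⁻¹) *
          ((lam * tau * |sg| * a / 10) * ∑ n ∈ Finset.Ico 1 q, (140 * bb lam q w n + 1))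
        ≤ (200 / lam) ^ (q - 1) *
          ((lam * tau * |sg| * a / 10) * ∑ n ∈ Finset.Ico 1 q, (140 * bb lam q w n + 1)) := by
          gcongr
      _ = (lam * tau * |sg| * a / 10) *
          ((200 / lam) ^ (q - 1) * ∑ n ∈ Finset.Ico 1 q, (140 * bb lam q w n + 1)) := by ring
      _ ≤ (lam * tau * |sg| * a / 10) * 1 := by gcongr
      _ ≤ _ := by linarith

end

end Pool.Agent.MP31f1e8.KLF
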