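import Mathlib

/-!
KLF-Meas. Measure lemmas: sections of positive measure, inverse Lipschitz maps, reduction to a
fundamental domain of the torus.
-/

namespace Pool.Agent.MP31f1e8.KLF

open Set MeasureTheory

open scoped NNReal ENNReal

theorem volume_pos_of_sections {D : Set ℝ} (hD : 0 < volume D) {S : Set (ℝ × ℝ)}
    (h : ∀ om ∈ D, 0 < volume {t : ℝ | (om, t) ∈ S}) : 0 < volume S := by
  by_contra hS
  have hS0 : (volume.prod volume) S = 0 := by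
    rw [← Measure.volume_eq_prod]
    exact le_antisymm (not_lt.1 hS) zero_le
  have h1 := Measure.measure_ae_null_of_prod_null hS0
  have h2 : D ⊆ {om | ¬ (fun x => volume (Prod.mk x ⁻¹' S)) om = (0 : ℝ → ℝ≥0∞) om} := by
    intro om hom h3
    exact (h om hom).ne' h3
  have h3 : volume D = 0 := measure_mono_null h2 h1
  exact hD.ne' h3

theorem volume_image_pos {S : Set (ℝ × ℝ)} {Φ : ℝ × ℝ → ℝ × ℝ} {K : ℝ≥0} (hS : 0 < volume S)
    (h : ∀ p ∈ S, ∀ p' ∈ S, dist p p' ≤ K * dist (Φ p) (Φ p')) : 0 < volume (Φ '' S) := by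
  classical
  have hinv : ∀ y ∈ Φ '' S, Function.invFunOn Φ S y ∈ S ∧ Φ (Function.invFunOn Φ S y) = y :=
    fun y hy => ⟨Function.invFunOn_mem hy, Function.invFunOn_eq hy⟩
  have hlip : LipschitzOnWith K (Function.invFunOn Φ S) (Φ '' S) := by
    refine LipschitzOnWith.of_dist_le_mul fun y hy y' hy' => ?_
    have h1 := h _ (hinv y hy).1 _ (hinv y' hy').1
    rwa [(hinv y hy).2, (hinv y' hy').2] at h1
  have hsub : S ⊆ Function.invFunOn Φ S '' (Φ '' S) := by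
    intro p hp
    refine ⟨Φ p, mem_image_of_mem _ hp, ?_⟩
    have h1 := hinv (Φ p) (mem_image_of_mem _ hp)
    have h2 := h _ h1.1 _ hp
    rw [h1.2, dist_self, mul_zero] at h2
    exact dist_le_zero.1 h2
  have h3 := hlip.hausdorffMeasure_image_le (d := 2) (by norm_num)
  rw [hausdorffMeasure_prod_real] at h3
  have h4 : volume S ≤ (K : ℝ≥0∞) ^ (2 : ℝ) * volume (Φ '' S) := (measure_mono hsub).trans h3
  by_contra h5
  have h6 : volume (Φ '' S) = 0 := le_antisymm (not_lt.1 h5) zero_le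
  rw [h6, mul_zero] at h4
  exact hS.not_ge h4

theorem exists_pos_of_iUnion {S : ℕ → Set (ℝ × ℝ)} (h : 0 < volume (⋃ M, S M)) :
    ∃ M, 0 < volume (S M) := by
  by_contra h1
  push Not at h1
  have h2 : volume (⋃ M, S M) = 0 := measure_iUnion_null fun M => le_antisymm (h1 M) zero_le
  exact h.ne' h2

/-- reduction to a fundamental domain -/
theorem exists_compact_fund {a : ℝ} (ha : 0 < a) {P : ℝ × ℝ → Prop}
    (hP : ∀ p : ℝ × ℝ, ∀ k l : ℤ, P (p.1 + k * a, p.2 + l * a) → P p) {K0 : Set (ℝ × ℝ)}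
    (hK : IsCompact K0) (hv : 0 < volume K0) (h : ∀ p ∈ K0, P p) :
    ∃ K : Set (ℝ × ℝ), IsCompact K ∧ K ⊆ Icc 0 a ×ˢ Icc 0 a ∧ 0 < volume K ∧ ∀ p ∈ K, P p := by
  have hcov : K0 ⊆ ⋃ kl : ℤ × ℤ, K0 ∩ (Icc (kl.1 * a) (kl.1 * a + a) ×ˢ Icc (kl.2 * a) (kl.2 * a + a)) := by
    intro p hp
    refine mem_iUnion.2 ⟨(⌊p.1 / a⌋, ⌊p.2 / a⌋), hp, ?_, ?_⟩
    · have h1 := Int.floor_le (p.1 / a)
      have h2 := (Int.lt_floor_add_one (p.1 / a)).le
      rw [le_div_iff₀ ha] at h1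
      rw [div_le_iff₀ ha] at h2
      exact ⟨h1, by linarith⟩
    · have h1 := Int.floor_le (p.2 / a)
      have h2 := (Int.lt_floor_add_one (p.2 / a)).le
      rw [le_div_iff₀ ha] at h1
      rw [div_le_iff₀ ha] at h2
      exact ⟨h1, by linarith⟩
  obtain ⟨⟨k, l⟩, hkl⟩ : ∃ kl : ℤ × ℤ, 0 < volume (K0 ∩
      (Icc (kl.1 * a) (kl.1 * a + a) ×ˢ Icc (kl.2 * a) (kl.2 * a + a))) := by
    by_contra h1
    push Not at h1
    have h2 := measure_iUnion_null fun kl => le_antisymm (h1 kl) zero_le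
    exact hv.ne' (measure_mono_null hcov h2)
  set K1 := K0 ∩ (Icc ((k : ℝ) * a) (k * a + a) ×ˢ Icc ((l : ℝ) * a) (l * a + a)) with hK1
  have hK1c : IsCompact K1 := hK.inter_right (isClosed_Icc.prod isClosed_Icc)
  refine ⟨(fun p : ℝ × ℝ => p + ((k : ℝ) * a, (l : ℝ) * a)) ⁻¹' K1, ?_, ?_, ?_, ?_⟩
  · exact ((Homeomorph.addRight (((k : ℝ) * a, (l : ℝ) * a) : ℝ × ℝ)).isCompact_preimage).2 hK1c
  · intro p hp
    have h1 : p + ((k : ℝ) * a, (l : ℝ) * a) ∈ K1 := hp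
    obtain ⟨-, h2, h3⟩ := h1
    have h4 : (k : ℝ) * a ≤ p.1 + k * a ∧ p.1 + k * a ≤ k * a + a := h2
    have h5 : (l : ℝ) * a ≤ p.2 + l * a ∧ p.2 + l * a ≤ l * a + a := h3
    exact ⟨⟨by linarith [h4.1], by linarith [h4.2]⟩, ⟨by linarith [h5.1], by linarith [h5.2]⟩⟩
  · rw [measure_preimage_add_right]
    exact hkl
  · intro p hp
    have h1 : p + ((k : ℝ) * a, (l : ℝ) * a) ∈ K1 := hp
    exact hP p k l (h _ h1.1)

end Pool.Agent.MP31f1e8.KLF
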