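import Pool.Agent.Lib.MP_31f1e8_mp.KLF.Loc

/-!
KLF-Rec. Poincare recurrence for the Standard map: almost every point of a set of points with a
localized eigenvector has infinitely many eigenvalues with exponentially decaying eigenvectors.
-/

namespace Pool.Agent.MP31f1e8.KLF

open Set Filter Topology MeasureTheory

section

local instance factPi : Fact (0 < 2 * Real.pi) := ⟨Real.two_pi_pos⟩

noncomputable local instance angMeas : MeasureSpace Real.Angle :=
  inferInstanceAs (MeasureSpace (AddCircle (2 * Real.pi)))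

local instance angBorel : BorelSpace Real.Angle :=
  inferInstanceAs (BorelSpace (AddCircle (2 * Real.pi)))

local instance angHaar : (volume : Measure Real.Angle).IsAddHaarMeasure :=
  inferInstanceAs ((volume : Measure (AddCircle (2 * Real.pi))).IsAddHaarMeasure)

local instance angNeg : (volume : Measure Real.Angle).IsNegInvariant :=
  inferInstanceAs ((volume : Measure (AddCircle (2 * Real.pi))).IsNegInvariant)

local instance angFin : IsFiniteMeasure (volume : Measure Real.Angle) :=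
  inferInstanceAs (IsFiniteMeasure (volume : Measure (AddCircle (2 * Real.pi))))

local instance angSec : SecondCountableTopology Real.Angle :=
  inferInstanceAs (SecondCountableTopology (AddCircle (2 * Real.pi)))

theorem mp_stdMap (lam : ℝ) : MeasurePreserving (stdMap lam)
    ((volume : Measure Real.Angle).prod volume) ((volume : Measure Real.Angle).prod volume) := by
  have h1 : MeasurePreserving (fun p : Real.Angle × Real.Angle =>
      (p.1, 2 • p.1 + ((lam * p.1.sin : ℝ) : Real.Angle) - p.2))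
      ((volume : Measure Real.Angle).prod volume) ((volume : Measure Real.Angle).prod volume) := by
    refine MeasurePreserving.skew_product (f := fun x : Real.Angle => x)
      (g := fun x y : Real.Angle => 2 • x + ((lam * x.sin : ℝ) : Real.Angle) - y)
      (MeasurePreserving.id _) ?_ ?_
    · refine Continuous.measurable ?_
      refine Continuous.sub ?_ continuous_snd
      refine ((continuous_fst.nsmul 2)).add ?_
      exact Real.Angle.continuous_coe.comp
        (continuous_const.mul (Real.Angle.continuous_sin.comp continuous_fst))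
    · exact Eventually.of_forall fun x => Measure.map_sub_left_eq_self _ _
  have h2 := (Measure.measurePreserving_swap (μ := (volume : Measure Real.Angle))
    (ν := (volume : Measure Real.Angle))).comp h1
  convert h2 using 1
  funext p
  show (2 • p.1 - p.2 + ((lam * p.1.sin : ℝ) : Real.Angle), p.1) =
    (2 • p.1 + ((lam * p.1.sin : ℝ) : Real.Angle) - p.2, p.1)
  congr 1
  abel

theorem mp_coe : MeasurePreserving (fun p : ℝ × ℝ => ((p.1 : Real.Angle), (p.2 : Real.Angle)))
    ((volume.restrict (Ioc 0 (0 + 2 * Real.pi))).prod (volume.restrict (Ioc 0 (0 + 2 * Real.pi))))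
    ((volume : Measure Real.Angle).prod volume) :=
  (AddCircle.measurePreserving_mk (2 * Real.pi) 0).prod
    (AddCircle.measurePreserving_mk (2 * Real.pi) 0)

/-- Almost every point of a set of points of the plane whose image under `T ^ j` has a localized
eigenvector has infinitely many eigenvalues with exponentially decaying eigenvectors. -/
theorem ae_infinite {lam M rho : ℝ} (hr : 0 < rho) (j : ℕ) {K : Set (ℝ × ℝ)}
    (h : ∀ p ∈ K, Loc lam M rho ((stdMap lam)^[j] ((p.1 : Real.Angle), (p.2 : Real.Angle)))) :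
    volume {p | p ∈ Ioc (0 : ℝ) (2 * Real.pi) ×ˢ Ioc (0 : ℝ) (2 * Real.pi) ∧ p ∈ K ∧
      ¬ (localizedSpectrum lam rho ((p.1 : Real.Angle), (p.2 : Real.Angle))).Infinite} = 0 := by
  have hcons := (mp_stdMap lam).conservative
  have hrec := hcons.ae_mem_imp_frequently_image_mem
    (isClosed_loc lam M rho hr).measurableSet.nullMeasurableSet
  have hj := ((mp_stdMap lam).iterate j).quasiMeasurePreserving.ae hrec
  have hp := mp_coe.quasiMeasurePreserving.ae hj
  rw [zero_add, Measure.prod_restrict, ← Measure.volume_eq_prod, ae_restrict_iff'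
    (measurableSet_Ioc.prod measurableSet_Ioc)] at hp
  rw [← nonpos_iff_eq_zero]
  refine le_trans (measure_mono ?_) (le_of_eq (ae_iff.1 hp))
  rintro p ⟨hp1, hp2, hp3⟩ hp4
  refine hp3 (infinite_of_frequently (M := M) hr ?_)
  have h1 := hp4 hp1 (h p hp2)
  have h2 : ∃ᶠ n : ℕ in atTop, Loc lam M rho ((stdMap lam)^[n + j] ((p.1 : Real.Angle), (p.2 : Real.Angle))) := by
    refine h1.mono fun n hn => ?_
    rw [Function.iterate_add_apply]
    exact hn
  exact (tendsto_add_atTop_nat j).frequently h2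

theorem exists_compact_inf {lam M rho : ℝ} (hr : 0 < rho) (j : ℕ) {K : Set (ℝ × ℝ)}
    (hK : IsCompact K) (hs : K ⊆ Icc 0 (2 * Real.pi) ×ˢ Icc 0 (2 * Real.pi)) (hv : 0 < volume K)
    (h : ∀ p ∈ K, Loc lam M rho ((stdMap lam)^[j] ((p.1 : Real.Angle), (p.2 : Real.Angle)))) :
    ∃ K' : Set (ℝ × ℝ), IsCompact K' ∧ 0 < volume K' ∧
      K' ⊆ {p | p ∈ Ico 0 (2 * Real.pi) ×ˢ Ico 0 (2 * Real.pi) ∧
        (localizedSpectrum lam rho ((p.1 : Real.Angle), (p.2 : Real.Angle))).Infinite} := by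
  obtain ⟨a, ha⟩ : ∃ a : ℝ, a = 2 * Real.pi := ⟨_, rfl⟩
  have hbad := ae_infinite hr j h
  rw [← ha] at hs hbad ⊢
  obtain ⟨N, hN⟩ : ∃ N : Set (ℝ × ℝ), N = {p | p ∈ Ioc (0 : ℝ) a ×ˢ Ioc (0 : ℝ) a ∧ p ∈ K ∧
      ¬ (localizedSpectrum lam rho ((p.1 : Real.Angle), (p.2 : Real.Angle))).Infinite} := ⟨_, rfl⟩
  rw [← hN] at hbad
  have hN0 : volume (toMeasurable volume N) = 0 := by rw [measure_toMeasurable, hbad]
  -- the open square
  have h1 : (Ioo (0 : ℝ) a ×ˢ Ioo (0 : ℝ) a : Set (ℝ × ℝ)) =ᵐ[volume] (Icc (0 : ℝ) a ×ˢ Icc (0 : ℝ) a) := by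
    rw [Measure.volume_eq_prod]
    exact Measure.set_prod_ae_eq Ioo_ae_eq_Icc Ioo_ae_eq_Icc
  have h2 : (K ∩ (Ioo (0 : ℝ) a ×ˢ Ioo (0 : ℝ) a) : Set (ℝ × ℝ)) =ᵐ[volume]
      (K ∩ (Icc (0 : ℝ) a ×ˢ Icc (0 : ℝ) a) : Set (ℝ × ℝ)) :=
    (Filter.EventuallyEq.refl _ _).inter h1
  have h3 : volume (K ∩ (Ioo (0 : ℝ) a ×ˢ Ioo (0 : ℝ) a)) = volume K := by
    rw [measure_congr h2, inter_eq_self_of_subset_left hs]
  obtain ⟨G, hG⟩ : ∃ G : Set (ℝ × ℝ), G = (K ∩ (Ioo (0 : ℝ) a ×ˢ Ioo (0 : ℝ) a)) \ toMeasurable volume N :=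
    ⟨_, rfl⟩
  have hGv : volume G = volume K := by
    rw [hG, measure_sdiff_null hN0, h3]
  have hGm : MeasurableSet G := by
    rw [hG]
    exact (hK.isClosed.measurableSet.inter (measurableSet_Ioo.prod measurableSet_Ioo)).diff
      (measurableSet_toMeasurable _ _)
  obtain ⟨K', h4, h5, h6⟩ := hGm.exists_lt_isCompact_of_ne_top (by
    rw [hGv]
    exact hK.measure_lt_top.ne) (r := 0) (by rw [hGv]; exact hv)
  refine ⟨K', h5, h6, fun p hp => ?_⟩
  have hpG := h4 hp
  rw [hG] at hpG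
  obtain ⟨⟨hpK, hp1, hp2⟩, hpN⟩ := hpG
  refine ⟨⟨⟨hp1.1.le, hp1.2⟩, ⟨hp2.1.le, hp2.2⟩⟩, ?_⟩
  by_contra hinf
  refine hpN (subset_toMeasurable _ _ ?_)
  rw [hN]
  exact ⟨⟨⟨hp1.1, hp1.2.le⟩, ⟨hp2.1, hp2.2.le⟩⟩, hpK, hinf⟩

end

end Pool.Agent.MP31f1e8.KLF
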