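import Pool.Agent.Lib.MP_31f1e8_mp.KLF.Feed
import Pool.Agent.Lib.MP_31f1e8_mp.KLF.Clo
import Pool.Agent.Lib.MP_31f1e8_mp.KLF.Meas
import Pool.Agent.Lib.MP_31f1e8_mp.KLF.Rec
import Pool.Agent.Lib.MP_31f1e8_mp.KLE.Main

/-!
KLF-Fin. A cell and the invariant curves of its reduced equation give a set of points of the torus
of positive measure with an eigenvalue.
-/

namespace Pool.Agent.MP31f1e8.KLF

open Set MeasureTheory Filter Topology

section

variable {lam eta kap : ℝ} {q w : ℕ} {m : ℕ → ℤ} {sg tau sigma Xr E0 : ℝ} {kp : ℕ → ℝ}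
    {x : ℕ → ℝ → ℝ → ℝ} {H : ℕ → ℕ → ℝ}

/-- the block potential is the potential along the orbit -/
theorem vv_eq (hw : w < q) (u : ℝ → ℝ) (om t : ℝ) (k : ℤ) {n : ℕ} (hn : n < q) :
    vv lam q w x u om n (t + k * om) = lam * Real.cos (orb q x u om t (k * q + n + w)) := by
  unfold vv
  split_ifs with h
  · have e : (k * q + n + w : ℤ) = k * q + (w + n : ℕ) := by push_cast; ring
    rw [e, orb_at x u om t k h]
    have e2 : t + k * om + om = t + (k + 1) * om := by ring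
    rw [e2]
  · have e : (k * q + n + w : ℤ) = (k + 1) * q + (w + n - q : ℕ) := by
      push_cast [Nat.cast_sub (show q ≤ w + n by omega)]
      ring
    rw [e, orb_at x u om t (k + 1) (r := w + n - q) (by omega)]
    have e2 : t + k * om + om = t + ((k + 1 : ℤ) : ℝ) * om := by push_cast; ring
    have e3 : t + k * om + 2 * om = t + (((k + 1 : ℤ) : ℝ) + 1) * om := by push_cast; ring
    rw [e2, e3]

/-- shift of the phase according to the sign `sigma` -/
noncomputable def sh (sigma : ℝ) : ℝ := if sigma = 1 then 0 else 1 / 2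

theorem cur_of_kam {as : ℝ} {D : Set ℝ} {X : ℝ → ℝ → ℝ} {a : ℝ → ℝ} {Cs : ℝ} (has : 0 < as)
    (has1 : as ≤ 1 / 8) (h : Kam (1 / 10) as D H X a Cs) (hs : sigma = 1 ∨ sigma = -1) {om : ℝ}
    (hom : om ∈ D) : Cur sigma (a om) (fun t => X om (t + sh sigma)) := by
  have ha0 : 0 < a om := by have := h.a1 om hom; linarith
  have ha1 := h.a2 om hom
  rcases hs with hs | hs
  · have e : sh sigma = 0 := by unfold sh; rw [if_pos hs]
    refine ⟨ha0, by linarith, Or.inl hs, fun t => ?_, fun t => ?_, fun t t' => ?_⟩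
    · show X om (t + 1 + sh sigma) = X om (t + sh sigma)
      rw [e, add_zero, add_zero, h.per om hom]
    · rw [e, hs, add_zero, one_mul]
      have := h.near om hom t
      linarith
    · rw [e, hs, add_zero, add_zero, one_mul, one_mul]
      have := h.lip om hom t t'
      linarith
  · have e : sh sigma = 1 / 2 := by
      unfold sh
      rw [if_neg (by rw [hs]; norm_num)]
    have hcos : ∀ t : ℝ, Real.cos (2 * Real.pi * (t + 1 / 2)) = -Real.cos (2 * Real.pi * t) := by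
      intro t
      rw [show 2 * Real.pi * (t + 1 / 2) = 2 * Real.pi * t + Real.pi by ring, Real.cos_add_pi]
    refine ⟨ha0, by linarith, Or.inr hs, fun t => ?_, fun t => ?_, fun t t' => ?_⟩
    · show X om (t + 1 + sh sigma) = X om (t + sh sigma)
      rw [show t + 1 + sh sigma = t + sh sigma + 1 by ring, h.per om hom]
    · rw [e, hs]
      have := h.near om hom (t + 1 / 2)
      rw [hcos] at this
      rw [show -1 * X om (t + 1 / 2) - a om * Real.cos (2 * Real.pi * t) =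
        -(X om (t + 1 / 2) - a om * -Real.cos (2 * Real.pi * t)) by ring, abs_neg]
      linarith
    · rw [e, hs]
      have := h.lip om hom (t + 1 / 2) (t' + 1 / 2)
      rw [hcos, hcos, show t + 1 / 2 - (t' + 1 / 2) = t - t' by ring] at this
      rw [show (-1 * X om (t + 1 / 2) - a om * Real.cos (2 * Real.pi * t)) -
        (-1 * X om (t' + 1 / 2) - a om * Real.cos (2 * Real.pi * t')) =
        -((X om (t + 1 / 2) - a om * -Real.cos (2 * Real.pi * t)) -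
        (X om (t' + 1 / 2) - a om * -Real.cos (2 * Real.pi * t'))) by ring, abs_neg]
      linarith

theorem pos_of_cell {as gam L0 : ℝ} {D : Set ℝ} {X : ℝ → ℝ → ℝ} {a : ℝ → ℝ} {Cs : ℝ} (has : 0 < as)
    (has1 : as ≤ 1 / 8) (hD : IsCompact D) (hDv : 0 < volume D) (hdio : ∀ om ∈ D, KLD.Dio gam om)
    (hK : Kam (1 / 10) as D H X a Cs) (hc : Cell lam eta kap q w m sg tau sigma Xr E0 kp x H)
    (hl : 10 ^ 12 ≤ lam) (hL0 : 0 < L0) (hL : 192 * 16 * Real.exp (-(L0 / 2)) ≤ 1 / 16)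
    (hkap : kap * 10 ≤ as / 2 * Real.exp (-L0) / 128)
    (hred : ∀ al, KLD.Dio gam al → ∀ (z1 z2 A1 A2 B1 B2 A e0 : ℝ) (q : ℕ) (v : ℕ → ℝ → ℝ) (g : ℝ → ℝ)
        (κ T : ℕ → ℝ), z2 - z1 = 1 / 8 → KLE.Blk (1 / 16) 16 L0 z1 z2 A1 A2 B1 B2 A e0 q v g κ T →
        ∃ K : Set ℝ, IsClosed K ∧ ENNReal.ofReal (1 / 16 / (32 * 16) * (1 / 8)) ≤ volume (K ∩ Icc A1 A2) ∧
          ∀ x ∈ K, ∃ E, |E - e0| ≤ 1 ∧ ∃ w : ℤ → ℝ, w 0 = 1 ∧
            (∀ m : ℤ, |w m| ≤ 2 * Real.exp (L0 / 2) * Real.exp (-(L0 / (2 * q) * |(m : ℝ)|))) ∧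
            ∀ (k : ℤ) (n : ℕ), n < q →
              w (k * q + n + 1) + w (k * q + n - 1) + (v n (x + k * al) - E) * w (k * q + n) = 0) :
    ∃ (Mc rho : ℝ) (j : ℕ), 0 < rho ∧
    ∃ K : Set (ℝ × ℝ), IsCompact K ∧ K ⊆ Icc 0 (2 * Real.pi) ×ˢ Icc 0 (2 * Real.pi) ∧ 0 < volume K ∧
      ∀ p ∈ K, Loc lam Mc rho ((stdMap lam)^[j] ((p.1 : Real.Angle), (p.2 : Real.Angle))) := by
  have hl0 : 0 < lam := by linarith
  have hqw := hc.qw
  have hw1 := hc.w1
  have hw : w < q := by omega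
  have hq0 : (0 : ℝ) < q := by exact_mod_cast (show 0 < q by omega)
  have hcur : ∀ om ∈ D, Cur sigma (a om) (fun t => X om (t + sh sigma)) := fun om hom =>
    cur_of_kam has has1 hK hc.sig hom
  -- the curve
  obtain ⟨U, hU⟩ : ∃ U : ℝ → ℝ → ℝ, U = fun om t => X om (t + sh sigma) := ⟨_, rfl⟩
  have hUcur : ∀ om ∈ D, Cur sigma (a om) (U om) := by rw [hU]; exact hcur
  have hX7 : ∀ om ∈ D, ∀ t t', |X om t - X om t'| ≤ |t - t'| := by
    intro om hom t t'
    have h1 := (hcur om hom).lip' (t - sh sigma) (t' - sh sigma)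
    simp only [sub_add_cancel, sub_sub_sub_cancel_right] at h1
    have h2 := (hcur om hom).a1
    nlinarith [abs_nonneg (t - t')]
  have hXc := hK.continuousOn hX7
  have hUc : ∀ f : ℝ × ℝ → ℝ, Continuous f →
      ContinuousOn (fun p : ℝ × ℝ => U p.1 (f p)) (D ×ˢ univ) := by
    intro f hf
    rw [hU]
    have hg : Continuous fun p : ℝ × ℝ => (p.1, f p + sh sigma) :=
      continuous_fst.prodMk (hf.add continuous_const)
    exact hXc.comp hg.continuousOn fun p hp => ⟨hp.1, mem_univ _⟩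
  -- continuity of the orbit
  have horb : ∀ n : ℤ, ContinuousOn (fun p : ℝ × ℝ => orb q x (U p.1) p.1 p.2 n) (D ×ˢ univ) := by
    intro n
    obtain ⟨k, r, hr, rfl⟩ := exists_kr hc.q0 n
    have h1 : ContinuousOn (fun p : ℝ × ℝ => x r (U p.1 (p.2 + k * p.1)) (U p.1 (p.2 + (k + 1) * p.1)))
        (D ×ˢ univ) := by
      refine (hc.continuousOn hl0 hr.le).comp ((hUc _ ?_).prodMk (hUc _ ?_)) fun p hp => ?_
      · exact continuous_snd.add (continuous_const.mul continuous_fst)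
      · exact continuous_snd.add (continuous_const.mul continuous_fst)
      · exact ⟨(hUcur p.1 hp.1).mem _, (hUcur p.1 hp.1).mem _⟩
    refine h1.congr fun p hp => ?_
    exact orb_at x (U p.1) p.1 p.2 k hr
  -- the sets
  set e0 := lam * Real.cos (x w 0 0) with he0
  obtain ⟨S, hS⟩ : ∃ S : ℕ → Set (ℝ × ℝ), S = fun M : ℕ => {p : ℝ × ℝ | p ∈ D ×ˢ Icc (3 / 5 : ℝ) (9 / 10) ∧
    ∃ E ∈ Icc (e0 - 1) (e0 + 1), ∃ W : ℤ → ℝ, W 0 = 1 ∧
      (∀ m : ℤ, |W m| ≤ (M : ℝ) * Real.exp (-(1 / (M : ℝ) * |(m : ℝ)|))) ∧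
      ∀ n, W (n + 1) + W (n - 1) + (lam * Real.cos (orb q x (U p.1) p.1 p.2 (n + w)) - E) * W n = 0} :=
    ⟨_, rfl⟩
  have hScpt : ∀ M, IsCompact (S M) := by
    intro M
    rw [hS]
    refine compact_par (D' := D ×ˢ Icc (3 / 5 : ℝ) (9 / 10)) (hD.prod isCompact_Icc)
      (V := fun p n => lam * Real.cos (orb q x (U p.1) p.1 p.2 (n + w))) (fun n => ?_) (e0 - 1) (e0 + 1)
      (fun m : ℤ => (M : ℝ) * Real.exp (-(1 / (M : ℝ) * |(m : ℝ)|)))
    have h1 := (horb (n + w)).mono (prod_mono_right (subset_univ (Icc (3 / 5 : ℝ) (9 / 10))))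
    exact continuousOn_const.mul (Real.continuous_cos.comp_continuousOn h1)
  -- all sections have positive measure
  have hsec : ∀ om ∈ D, 0 < volume {t : ℝ | (om, t) ∈ ⋃ M, S M} := by
    intro om hom
    have hb := blk (om := om) hc hl (hUcur om hom) hL (hkap.trans (by
      have h1 := hK.a1 om hom
      gcongr))
    obtain ⟨K, -, hv, hKx⟩ := hred om (hdio om hom) _ _ _ _ _ _ _ _ _ _ _ _ _ (by norm_num) hb
    have h0 : 0 < volume (K ∩ Icc (3 / 5 : ℝ) (9 / 10)) := by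
      refine lt_of_lt_of_le ?_ hv
      rw [ENNReal.ofReal_pos]
      norm_num
    refine h0.trans_le (measure_mono fun t ht => ?_)
    obtain ⟨E, hE, W, hW0, hWb, hWe⟩ := hKx t ht.1
    obtain ⟨M, hM⟩ := exists_nat_ge (max (2 * Real.exp (L0 / 2)) (2 * q / L0))
    have hM1 : 2 * Real.exp (L0 / 2) ≤ (M : ℝ) := (le_max_left _ _).trans hM
    have hM2 : 2 * q / L0 ≤ (M : ℝ) := (le_max_right _ _).trans hM
    have hM0 : (0 : ℝ) < M := lt_of_lt_of_le (by positivity) hM1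
    have hM3 : 1 / (M : ℝ) ≤ L0 / (2 * q) := by
      rw [div_le_div_iff₀ hM0 (by positivity)]
      rw [div_le_iff₀ hL0] at hM2
      linarith
    refine mem_iUnion.2 ⟨M, ?_⟩
    rw [hS]
    refine ⟨⟨hom, ht.2⟩, E, ?_, W, hW0, fun m => ?_, fun n => ?_⟩
    · rw [abs_le] at hE
      constructor <;> linarith [hE.1, hE.2]
    · refine (hWb m).trans ?_
      gcongr
    · obtain ⟨k, r, hr, rfl⟩ := exists_kr hc.q0 n
      have h1 := hWe k r hr
      rw [vv_eq hw (U om) om t k hr] at h1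
      exact h1
  have hvol := volume_pos_of_sections hDv hsec
  obtain ⟨M, hM⟩ := exists_pos_of_iUnion hvol
  -- the map to the plane
  obtain ⟨Φ, hΦ⟩ : ∃ Φ : ℝ × ℝ → ℝ × ℝ, Φ = fun p => (orb q x (U p.1) p.1 p.2 1,
    orb q x (U p.1) p.1 p.2 0) := ⟨_, rfl⟩
  have hSsub : S M ⊆ D ×ˢ Icc (3 / 5 : ℝ) (9 / 10) := by
    rw [hS]
    exact fun p hp => hp.1
  have hΦc : ContinuousOn Φ (S M) := by
    rw [hΦ]
    exact ((horb 1).prodMk (horb 0)).mono (hSsub.trans (prod_mono_right (subset_univ _)))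
  have hΦe : ∀ p ∈ S M, Φ p = (x 1 (U p.1 p.2) (U p.1 (p.2 + p.1)), x 0 (U p.1 p.2) (U p.1 (p.2 + p.1))) := by
    intro p hp
    have h1 := orb_at (q := q) x (U p.1) p.1 p.2 0 (r := 1) (by omega)
    have h0 := orb_at (q := q) x (U p.1) p.1 p.2 0 (r := 0) (by omega)
    simp only [Int.cast_zero, zero_mul, add_zero, zero_add, one_mul, Nat.cast_one, Nat.cast_zero] at h1 h0
    rw [hΦ]
    show (orb q x (U p.1) p.1 p.2 1, orb q x (U p.1) p.1 p.2 0) = _
    rw [h1, h0]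
  have hsg : 0 < |sg| := abs_pos.2 hc.sg0
  have hinv : ∀ p ∈ S M, ∀ p' ∈ S M, dist p p' ≤
      (Real.toNNReal (|Cs| * (2 * (lam + 3) ^ q / |sg|)) : ℝ) * dist (Φ p) (Φ p') := by
    intro p hp p' hp'
    have hp1 := hSsub hp
    have hp2 := hSsub hp'
    rw [Real.coe_toNNReal _ (by positivity), hΦe p hp, hΦe p' hp']
    have h1 := hK.inj p.1 hp1.1 p'.1 hp2.1 (p.2 + sh sigma) (p'.2 + sh sigma) (by
      rw [add_sub_add_right_eq_sub, abs_le]
      constructor <;> linarith [hp1.2.1, hp1.2.2, hp2.2.1, hp2.2.2])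
    rw [add_sub_add_right_eq_sub] at h1
    have h2 := hc.inv hl0 ((hUcur p.1 hp1.1).mem p.2) ((hUcur p'.1 hp2.1).mem p'.2)
      ((hUcur p.1 hp1.1).mem (p.2 + p.1)) ((hUcur p'.1 hp2.1).mem (p'.2 + p'.1))
    have e1 : ∀ om t, U om t = X om (t + sh sigma) := by intro om t; rw [hU]
    have e2 : X p.1 (p.2 + sh sigma + p.1) = U p.1 (p.2 + p.1) := by rw [e1]; ring_nf
    have e3 : X p'.1 (p'.2 + sh sigma + p'.1) = U p'.1 (p'.2 + p'.1) := by rw [e1]; ring_nf
    rw [e2, e3, ← e1, ← e1] at h1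
    have h3 : dist p p' ≤ |p.1 - p'.1| + |p.2 - p'.2| := by
      have : dist p p' = max |p.1 - p'.1| |p.2 - p'.2| := by
        rw [← Real.dist_eq, ← Real.dist_eq]
        rfl
      rw [this]
      exact max_le (le_add_of_nonneg_right (abs_nonneg _)) (le_add_of_nonneg_left (abs_nonneg _))
    have h4 : dist ((x 1 (U p.1 p.2) (U p.1 (p.2 + p.1)), x 0 (U p.1 p.2) (U p.1 (p.2 + p.1))) : ℝ × ℝ)
        (x 1 (U p'.1 p'.2) (U p'.1 (p'.2 + p'.1)), x 0 (U p'.1 p'.2) (U p'.1 (p'.2 + p'.1))) =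
        max (|x 1 (U p.1 p.2) (U p.1 (p.2 + p.1)) - x 1 (U p'.1 p'.2) (U p'.1 (p'.2 + p'.1))|)
          (|x 0 (U p.1 p.2) (U p.1 (p.2 + p.1)) - x 0 (U p'.1 p'.2) (U p'.1 (p'.2 + p'.1))|) := by
      rw [← Real.dist_eq, ← Real.dist_eq]
      rfl
    rw [h4]
    set Mx := max (|x 1 (U p.1 p.2) (U p.1 (p.2 + p.1)) - x 1 (U p'.1 p'.2) (U p'.1 (p'.2 + p'.1))|)
          (|x 0 (U p.1 p.2) (U p.1 (p.2 + p.1)) - x 0 (U p'.1 p'.2) (U p'.1 (p'.2 + p'.1))|) with hMx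
    have h5 : |U p.1 p.2 - U p'.1 p'.2| + |U p.1 (p.2 + p.1) - U p'.1 (p'.2 + p'.1)| ≤
        2 * (lam + 3) ^ q / |sg| * Mx := by
      rw [div_mul_eq_mul_div, le_div_iff₀ hsg, mul_comm]
      exact h2
    calc dist p p' ≤ |p.1 - p'.1| + |p.2 - p'.2| := h3
      _ ≤ Cs * (|U p.1 p.2 - U p'.1 p'.2| + |U p.1 (p.2 + p.1) - U p'.1 (p'.2 + p'.1)|) := h1
      _ ≤ |Cs| * (2 * (lam + 3) ^ q / |sg| * Mx) := by
        gcongr
        exact le_abs_self _
      _ = _ := by ring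
  have himg : 0 < volume (Φ '' S M) := volume_image_pos hM hinv
  have hcpt : IsCompact (Φ '' S M) := (hScpt M).image_of_continuousOn hΦc
  have hpos2pi : (0 : ℝ) < 2 * Real.pi := by positivity
  have hM0 : (0 : ℝ) < M := by
    obtain ⟨p, hp⟩ := nonempty_of_measure_ne_zero hM.ne'
    rw [hS] at hp
    obtain ⟨-, E, -, W, hW0, hWb, hWe⟩ := hp
    have h1 := hWb 0
    rw [hW0, abs_one] at h1
    by_contra h2
    have h3 : (M : ℝ) = 0 := le_antisymm (not_lt.1 h2) (Nat.cast_nonneg M)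
    rw [h3, zero_mul] at h1
    linarith
  refine ⟨M, 1 / M, w - 1, by positivity, exists_compact_fund hpos2pi
    (P := fun p => Loc lam M (1 / M) ((stdMap lam)^[w - 1] ((p.1 : Real.Angle), (p.2 : Real.Angle)))) ?_
      hcpt himg ?_⟩
  · intro p k l hp
    have e1 : ∀ (s : ℝ) (k : ℤ), ((s + k * (2 * Real.pi) : ℝ) : Real.Angle) = (s : Real.Angle) := by
      intro s k
      rw [Real.Angle.coe_add]
      have : ((k * (2 * Real.pi) : ℝ) : Real.Angle) = 0 := by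
        rw [Real.Angle.coe_eq_zero_iff]
        exact ⟨k, by simp⟩
      rw [this, add_zero]
    have hp' : Loc lam M (1 / M) ((stdMap lam)^[w - 1] (((p.1 + k * (2 * Real.pi) : ℝ) : Real.Angle),
      ((p.2 + l * (2 * Real.pi) : ℝ) : Real.Angle))) := hp
    rw [e1, e1] at hp'
    exact hp'
  · rintro _ ⟨p, hp, rfl⟩
    have hp1 := hSsub hp
    have hp' := hp
    rw [hS] at hp'
    obtain ⟨-, E, -, W, hW0, hWb, hWe⟩ := hp'
    have hredu : ∀ t, Red H (U p.1 (t - p.1)) (U p.1 t) (U p.1 (t + p.1)) := by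
      intro t
      rw [hU]
      have h1 := hK.red p.1 hp1.1 (t + sh sigma)
      show Red H (X p.1 (t - p.1 + sh sigma)) (X p.1 (t + sh sigma)) (X p.1 (t + p.1 + sh sigma))
      rw [show t - p.1 + sh sigma = t + sh sigma - p.1 by ring,
        show t + p.1 + sh sigma = t + sh sigma + p.1 by ring]
      exact h1
    have heqn := orb_eqn hc (u := U p.1) (om := p.1) (fun t => (hUcur p.1 hp1.1).mem t) hredu p.2
    have key := loc_of_orbit (lam := lam) (x := orb q x (U p.1) p.1 p.2)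
      (k := fun n => m (n % (q : ℤ)).toNat) heqn (W := W) (E := E) (M := M) (rho := 1 / (M : ℝ)) hW0
      (fun n => hWb n) (i := w) (by omega) (fun n => hWe n)
    have e : Φ p = (orb q x (U p.1) p.1 p.2 1, orb q x (U p.1) p.1 p.2 0) := by rw [hΦ]
    rw [e]
    exact key

end

/-- Parts K and C give the theorem. -/
theorem main_of (hKam : KamMain) (hCell : CellMain) :
    ∃ lam0 : ℝ, ∃ U : Set ℝ, IsOpen U ∧ Ioi lam0 ⊆ closure U ∧ ∀ lam ∈ U, ∃ rho : ℝ, 0 < rho ∧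
      ∃ K : Set (ℝ × ℝ), IsCompact K ∧ 0 < volume K ∧
        K ⊆ {p | p ∈ Ico 0 (2 * Real.pi) ×ˢ Ico 0 (2 * Real.pi) ∧
          (localizedSpectrum lam rho ((p.1 : Real.Angle), (p.2 : Real.Angle))).Infinite} := by
  obtain ⟨as, gam, eta, has, has1, hgam, heta, D, hD, -, hDv, hdio, hX⟩ := hKam (1 / 10) (by norm_num)
  obtain ⟨L0, hL0, hL, hred⟩ := KLE.red (c := 1 / 16) (C := 16) (gam := gam) (len := 1 / 8) (by norm_num)
    (by norm_num) hgam (by norm_num)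
  obtain ⟨lam0, U, hUo, -, hUc, hU⟩ := hCell eta (as / 2 * Real.exp (-L0) / 1280) heta (by positivity)
  refine ⟨max lam0 (10 ^ 12), U ∩ Ioi (max lam0 (10 ^ 12)), hUo.inter isOpen_Ioi, ?_, ?_⟩
  · intro s hs
    have h1 : s ∈ Ioi (max lam0 (10 ^ 12)) ∩ closure U :=
      ⟨hs, hUc (mem_Ioi.2 ((le_max_left lam0 (10 ^ 12)).trans_lt (mem_Ioi.1 hs)))⟩
    have h2 := isOpen_Ioi.inter_closure h1
    rwa [inter_comm] at h2
  · rintro lam ⟨hlU, hlam⟩
    obtain ⟨q, w, m, sg, tau, sigma, Xr, E0, kp, x, H, hc⟩ := hU lam hlU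
    obtain ⟨X, a, Cs, hK⟩ := hX H hc.small
    obtain ⟨Mc, rho, j, hrho, K, hK1, hK2, hK3, hK4⟩ := pos_of_cell has has1 hD hDv hdio hK hc
      (lt_of_le_of_lt (le_max_right _ _) hlam).le hL0 (hL L0 le_rfl) (by linarith) (hred L0 le_rfl)
    exact ⟨rho, hrho, exists_compact_inf hrho j hK1 hK2 hK3 hK4⟩

end Pool.Agent.MP31f1e8.KLF
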