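import Mathlib

/-!
KLF-Half. From the closed to the half-open fundamental domain.
-/

namespace Pool.Agent.MP31f1e8.KLF

open Set MeasureTheory

theorem exists_compact_half {a : ℝ} {K : Set (ℝ × ℝ)} (hK : IsCompact K)
    (hs : K ⊆ Icc 0 a ×ˢ Icc 0 a) (hv : 0 < volume K) :
    ∃ K' : Set (ℝ × ℝ), IsCompact K' ∧ 0 < volume K' ∧ K' ⊆ K ∧ K' ⊆ Ico 0 a ×ˢ Ico 0 a := by
  have h1 : (Ico (0 : ℝ) a ×ˢ Ico (0 : ℝ) a : Set (ℝ × ℝ)) =ᵐ[volume] (Icc (0 : ℝ) a ×ˢ Icc (0 : ℝ) a) := by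
    rw [Measure.volume_eq_prod]
    exact Measure.set_prod_ae_eq Ico_ae_eq_Icc Ico_ae_eq_Icc
  have h2 : (K ∩ (Ico (0 : ℝ) a ×ˢ Ico (0 : ℝ) a) : Set (ℝ × ℝ)) =ᵐ[volume]
      (K ∩ (Icc (0 : ℝ) a ×ˢ Icc (0 : ℝ) a) : Set (ℝ × ℝ)) :=
    (Filter.EventuallyEq.refl _ _).inter h1
  have h3 : volume (K ∩ (Ico (0 : ℝ) a ×ˢ Ico (0 : ℝ) a)) = volume K := by
    rw [measure_congr h2, inter_eq_self_of_subset_left hs]
  have hm : MeasurableSet (K ∩ (Ico (0 : ℝ) a ×ˢ Ico (0 : ℝ) a)) :=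
    hK.isClosed.measurableSet.inter (measurableSet_Ico.prod measurableSet_Ico)
  have hlt : 0 < volume (K ∩ (Ico (0 : ℝ) a ×ˢ Ico (0 : ℝ) a)) := by rw [h3]; exact hv
  have hfin : volume (K ∩ (Ico (0 : ℝ) a ×ˢ Ico (0 : ℝ) a)) ≠ ⊤ := by
    rw [h3]
    exact hK.measure_lt_top.ne
  obtain ⟨K', h4, h5, h6⟩ := hm.exists_lt_isCompact_of_ne_top hfin hlt
  exact ⟨K', h5, h6, h4.trans inter_subset_left, h4.trans inter_subset_right⟩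

end Pool.Agent.MP31f1e8.KLF
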