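import Pool.Agent.Lib.MP_31f1e8_mp.DefsL
import Pool.Agent.Lib.MP_31f1e8_mp.KLF.Clo
import Pool.Agent.Lib.MP_31f1e8_mp.KLF.Eig

/-!
KLF-Loc. Points with an exponentially localized eigenvector centred at `0`: they form a closed set,
and a point whose orbit visits it infinitely often has infinitely many eigenvalues with
exponentially decaying eigenvectors.
-/

namespace Pool.Agent.MP31f1e8.KLF

open Set Filter Topology

/-- the potential along the orbit -/
noncomputable def pot (lam : ℝ) (z : Real.Angle × Real.Angle) (n : ℤ) : ℝ :=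
  lam * ((stdMap lam ^ n) z).1.cos

/-- an exponentially localized eigenvector with centre `0` -/
def Loc (lam M rho : ℝ) (z : Real.Angle × Real.Angle) : Prop :=
  ∃ E : ℝ, ∃ u : ℤ → ℝ, u 0 = 1 ∧ (∀ n : ℤ, |u n| ≤ M * Real.exp (-(rho * |(n : ℝ)|))) ∧
    ∀ n : ℤ, u (n + 1) + u (n - 1) + (pot lam z n - E) * u n = 0

theorem pot_shift (lam : ℝ) (z : Real.Angle × Real.Angle) (k n : ℤ) :
    pot lam ((stdMap lam ^ k) z) n = pot lam z (n + k) := by
  unfold pot
  rw [zpow_add, Equiv.Perm.mul_apply]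

theorem continuous_stdMap (lam : ℝ) : Continuous (stdMap lam) := by
  show Continuous fun p : Real.Angle × Real.Angle =>
    (2 • p.1 - p.2 + ((lam * p.1.sin : ℝ) : Real.Angle), p.1)
  refine Continuous.prodMk ?_ continuous_fst
  refine ((continuous_fst.nsmul 2).sub continuous_snd).add ?_
  exact Real.Angle.continuous_coe.comp
    (continuous_const.mul (Real.Angle.continuous_sin.comp continuous_fst))

theorem continuous_stdMap_inv (lam : ℝ) : Continuous ((stdMap lam)⁻¹ : Equiv.Perm _) := by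
  show Continuous fun p : Real.Angle × Real.Angle =>
    (p.2, 2 • p.2 - p.1 + ((lam * p.2.sin : ℝ) : Real.Angle))
  refine Continuous.prodMk continuous_snd ?_
  refine ((continuous_snd.nsmul 2).sub continuous_fst).add ?_
  exact Real.Angle.continuous_coe.comp
    (continuous_const.mul (Real.Angle.continuous_sin.comp continuous_snd))

theorem continuous_zpow (lam : ℝ) (n : ℤ) : Continuous (stdMap lam ^ n : Equiv.Perm _) := by
  induction n using Int.induction_on with
  | zero => exact continuous_id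
  | succ n ih =>
    have e : (stdMap lam ^ ((n : ℤ) + 1) : Equiv.Perm _) = stdMap lam ^ (n : ℤ) * stdMap lam := by
      rw [zpow_add, zpow_one]
    rw [e]
    exact ih.comp (continuous_stdMap lam)
  | pred n ih =>
    have e : (stdMap lam ^ (-(n : ℤ) - 1) : Equiv.Perm _) =
        stdMap lam ^ (-(n : ℤ)) * (stdMap lam)⁻¹ := by
      rw [zpow_sub, zpow_one]
    rw [e]
    exact ih.comp (continuous_stdMap_inv lam)

theorem continuous_pot (lam : ℝ) (n : ℤ) : Continuous fun z => pot lam z n :=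
  continuous_const.mul (Real.Angle.continuous_cos.comp (continuous_fst.comp (continuous_zpow lam n)))

theorem isClosed_loc (lam M rho : ℝ) (hr : 0 < rho) : IsClosed {z | Loc lam M rho z} := by
  obtain ⟨B, hB⟩ : ∃ B : ℝ, B = 2 * M + |lam| := ⟨_, rfl⟩
  have hpi : Continuous fun p : ℝ × ℝ => ((p.1 : Real.Angle), (p.2 : Real.Angle)) :=
    (Real.Angle.continuous_coe.comp continuous_fst).prodMk
      (Real.Angle.continuous_coe.comp continuous_snd)
  have hc := compact_par (D' := Icc (-Real.pi) Real.pi ×ˢ Icc (-Real.pi) Real.pi)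
    (isCompact_Icc.prod isCompact_Icc)
    (V := fun p n => pot lam ((p.1 : Real.Angle), (p.2 : Real.Angle)) n)
    (fun n => ((continuous_pot lam n).comp hpi).continuousOn) (-B) B
    (fun m : ℤ => M * Real.exp (-(rho * |(m : ℝ)|)))
  have him := (hc.image hpi).isClosed
  convert him using 1
  ext z
  constructor
  · rintro ⟨E, u, h0, hb, hu⟩
    refine ⟨(z.1.toReal, z.2.toReal), ⟨⟨⟨(Real.Angle.neg_pi_lt_toReal _).le, Real.Angle.toReal_le_pi _⟩,
      ⟨(Real.Angle.neg_pi_lt_toReal _).le, Real.Angle.toReal_le_pi _⟩⟩, E, ?_, u, h0, hb, ?_⟩, ?_⟩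
    · have h1 := hu 0
      rw [h0, mul_one, zero_add, zero_sub] at h1
      have hM : 0 ≤ M := by
        have := hb 0
        rw [h0] at this
        simp only [Int.cast_zero, abs_zero, mul_zero, neg_zero, Real.exp_zero, mul_one, abs_one] at this
        linarith
      have h2 : |u 1| ≤ M := (hb 1).trans (mul_le_of_le_one_right hM (Real.exp_le_one_iff.2 (by
        have := mul_nonneg hr.le (abs_nonneg ((1 : ℤ) : ℝ))
        linarith)))
      have h3 : |u (-1)| ≤ M := (hb (-1)).trans (mul_le_of_le_one_right hM (Real.exp_le_one_iff.2 (by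
        have := mul_nonneg hr.le (abs_nonneg ((-1 : ℤ) : ℝ))
        linarith)))
      have h4 : |pot lam z 0| ≤ |lam| := by
        unfold pot
        rw [abs_mul]
        refine mul_le_of_le_one_right (abs_nonneg _) ?_
        rw [← Real.Angle.cos_toReal]
        exact Real.abs_cos_le_one _
      rw [abs_le] at h2 h3 h4
      rw [hB]
      constructor <;> linarith [h2.1, h2.2, h3.1, h3.2, h4.1, h4.2]
    · simpa using hu
    · exact Prod.ext (Real.Angle.coe_toReal _) (Real.Angle.coe_toReal _)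
  · rintro ⟨p, ⟨-, E, -, u, h0, hb, hu⟩, rfl⟩
    exact ⟨E, u, h0, hb, hu⟩

/-! ### Solutions -/

theorem sol_zero {V : ℤ → ℝ} {E : ℝ} {u : ℤ → ℝ}
    (hu : ∀ n, u (n + 1) + u (n - 1) + (V n - E) * u n = 0) {k : ℤ} (h0 : u k = 0)
    (h1 : u (k + 1) = 0) (n : ℤ) : u n = 0 := by
  have key : ∀ j : ℤ, u (k + j) = 0 ∧ u (k + j + 1) = 0 := by
    intro j
    induction j using Int.induction_on with
    | zero => simpa using ⟨h0, h1⟩
    | succ j ih =>
      have h := hu (k + j + 1)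
      rw [add_sub_cancel_right, ih.1, ih.2] at h
      refine ⟨by rw [← add_assoc]; exact ih.2, ?_⟩
      rw [← add_assoc]
      linarith
    | pred j ih =>
      have h := hu (k + -(j : ℤ))
      rw [ih.1, ih.2] at h
      have e1 : k + (-(j : ℤ) - 1) = k + -(j : ℤ) - 1 := by ring
      refine ⟨?_, ?_⟩
      · rw [e1]
        linarith
      · rw [e1, sub_add_cancel]
        exact ih.1
  have := (key (n - k)).1
  rwa [add_sub_cancel] at this

theorem wronskian {V : ℤ → ℝ} {E : ℝ} {u v : ℤ → ℝ}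
    (hu : ∀ n, u (n + 1) + u (n - 1) + (V n - E) * u n = 0)
    (hv : ∀ n, v (n + 1) + v (n - 1) + (V n - E) * v n = 0) (n : ℤ) :
    u (n + 1) * v n - u n * v (n + 1) = u 1 * v 0 - u 0 * v 1 := by
  have key : ∀ n : ℤ, u (n + 1) * v n - u n * v (n + 1) = u n * v (n - 1) - u (n - 1) * v n := by
    intro n
    linear_combination v n * hu n - u n * hv n
  induction n using Int.induction_on with
  | zero => simp
  | succ n ih =>
    rw [key, add_sub_cancel_right]
    exact ih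
  | pred n ih =>
    have h := key (-(n : ℤ))
    rw [ih] at h
    rw [sub_add_cancel]
    exact h.symm

theorem wronskian_zero {V : ℤ → ℝ} {E : ℝ} {u v : ℤ → ℝ}
    (hu : ∀ n, u (n + 1) + u (n - 1) + (V n - E) * u n = 0)
    (hv : ∀ n, v (n + 1) + v (n - 1) + (V n - E) * v n = 0) {M rho : ℝ} (hr : 0 < rho) {a b : ℤ}
    (hub : ∀ n : ℤ, |u n| ≤ M * Real.exp (-(rho * |((n - a : ℤ) : ℝ)|)))
    (hvb : ∀ n : ℤ, |v n| ≤ M * Real.exp (-(rho * |((n - b : ℤ) : ℝ)|))) (n : ℤ) :
    u (n + 1) * v n - u n * v (n + 1) = 0 := by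
  have hM : 0 ≤ M := by
    have := (abs_nonneg _).trans (hub a)
    rw [sub_self] at this
    simpa using this
  -- both tend to zero at infinity
  have hexp : ∀ c : ℤ, Tendsto (fun k : ℕ => M * Real.exp (-(rho * |(((k : ℤ) - c : ℤ) : ℝ)|))) atTop (𝓝 0) := by
    intro c
    rw [show (0 : ℝ) = M * 0 by ring]
    refine Tendsto.const_mul _ (Real.tendsto_exp_atBot.comp ?_)
    refine tendsto_neg_atTop_atBot.comp ?_
    refine Tendsto.const_mul_atTop hr ?_
    refine tendsto_abs_atTop_atTop.comp ?_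
    have h1 : Tendsto (fun k : ℕ => (k : ℝ) - c) atTop atTop :=
      tendsto_atTop_add_const_right _ _ tendsto_natCast_atTop_atTop
    refine h1.congr fun k => ?_
    push_cast
    ring
  have hu0 : Tendsto (fun k : ℕ => u (k : ℤ)) atTop (𝓝 0) :=
    squeeze_zero_norm (fun k => hub k) (hexp a)
  have hv0 : Tendsto (fun k : ℕ => v (k : ℤ)) atTop (𝓝 0) :=
    squeeze_zero_norm (fun k => hvb k) (hexp b)
  have hu1 : Tendsto (fun k : ℕ => u ((k : ℤ) + 1)) atTop (𝓝 0) := by
    have := hu0.comp (tendsto_add_atTop_nat 1)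
    refine this.congr fun k => ?_
    show u (((k + 1 : ℕ) : ℤ)) = _
    push_cast
    rfl
  have hv1 : Tendsto (fun k : ℕ => v ((k : ℤ) + 1)) atTop (𝓝 0) := by
    have := hv0.comp (tendsto_add_atTop_nat 1)
    refine this.congr fun k => ?_
    show v (((k + 1 : ℕ) : ℤ)) = _
    push_cast
    rfl
  have hW : Tendsto (fun k : ℕ => u ((k : ℤ) + 1) * v (k : ℤ) - u (k : ℤ) * v ((k : ℤ) + 1)) atTop (𝓝 0) := by
    have := (hu1.mul hv0).sub (hu0.mul hv1)
    simpa using this
  have hconst : ∀ k : ℕ, u ((k : ℤ) + 1) * v (k : ℤ) - u (k : ℤ) * v ((k : ℤ) + 1) =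
      u (n + 1) * v n - u n * v (n + 1) := fun k => by
    rw [wronskian hu hv k, wronskian hu hv n]
  exact tendsto_nhds_unique (tendsto_const_nhds.congr fun k => (hconst k).symm) hW

/-- two localized eigenvectors with the same eigenvalue have centres near each other -/
theorem centres_near {V : ℤ → ℝ} {E : ℝ} {u v : ℤ → ℝ}
    (hu : ∀ n, u (n + 1) + u (n - 1) + (V n - E) * u n = 0)
    (hv : ∀ n, v (n + 1) + v (n - 1) + (V n - E) * v n = 0) {M rho : ℝ} (hr : 0 < rho) {a b : ℤ}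
    (ha : u a = 1) (hb : v b = 1)
    (hub : ∀ n : ℤ, |u n| ≤ M * Real.exp (-(rho * |((n - a : ℤ) : ℝ)|)))
    (hvb : ∀ n : ℤ, |v n| ≤ M * Real.exp (-(rho * |((n - b : ℤ) : ℝ)|))) :
    1 ≤ M ^ 2 * Real.exp (-(rho * |((b - a : ℤ) : ℝ)|)) := by
  have hW := wronskian_zero hv hu hr hvb hub a
  have hM : 0 ≤ M := by
    have := (abs_nonneg _).trans (hub a)
    rw [sub_self] at this
    simpa using this
  have hD : ∀ n, v n - v a * u n = 0 := by
    refine sol_zero (V := V) (E := E) (u := fun n => v n - v a * u n) (fun n => ?_) (k := a) ?_ ?_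
    · show (v (n + 1) - v a * u (n + 1)) + (v (n - 1) - v a * u (n - 1)) +
        (V n - E) * (v n - v a * u n) = 0
      linear_combination hv n - v a * hu n
    · show v a - v a * u a = 0
      rw [ha]
      ring
    · show v (a + 1) - v a * u (a + 1) = 0
      rw [ha, mul_one] at hW
      linarith
  have h1 := hD b
  rw [hb] at h1
  have h2 : (1 : ℝ) = v a * u b := by linarith
  have h3 : (1 : ℝ) = |v a| * |u b| := by rw [← abs_mul, ← h2, abs_one]
  have h4 : |v a| ≤ M := (hvb a).trans (mul_le_of_le_one_right hM (Real.exp_le_one_iff.2 (by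
    have := mul_nonneg hr.le (abs_nonneg ((a - b : ℤ) : ℝ))
    linarith)))
  calc (1 : ℝ) = |v a| * |u b| := h3
    _ ≤ M * (M * Real.exp (-(rho * |((b - a : ℤ) : ℝ)|))) := by
      gcongr
      exact hub b
    _ = _ := by ring

theorem mem_localizedSpectrum {lam rho : ℝ} (hr : 0 < rho) {z : Real.Angle × Real.Angle} {E C : ℝ}
    {v : ℤ → ℝ} {i : ℤ} (hi : v i ≠ 0) (hb : ∀ n : ℤ, |v n| ≤ C * Real.exp (-(rho * |(n : ℝ)|)))
    (hv : ∀ n, v (n + 1) + v (n - 1) + (pot lam z n - E) * v n = 0) :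
    E - 2 ∈ localizedSpectrum lam rho z := by
  have hmem : Memℓp (fun n : ℤ => (v n : ℂ)) 2 := by
    apply memℓp_gen
    have h3 := (summable_exp_int hr 0).mul_left (C ^ 2)
    refine h3.of_nonneg_of_le (fun n => by positivity) fun n => ?_
    have h2 := hb n
    simp only [ENNReal.toReal_ofNat, Complex.norm_real, Real.norm_eq_abs, Real.rpow_ofNat]
    calc |v n| ^ 2 ≤ (C * Real.exp (-(rho * |(n : ℝ)|))) ^ 2 := by gcongr
      _ = C ^ 2 * Real.exp (-(rho * |((n + 0 : ℤ) : ℝ)|)) ^ 2 := by rw [mul_pow, add_zero]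
  refine ⟨⟨fun n => (v n : ℂ), hmem⟩, ?_, ⟨C, fun n => ?_⟩, ?_⟩
  · intro h
    have h1 : ((⟨fun n => (v n : ℂ), hmem⟩ : lp (fun _ : ℤ => ℂ) 2) : ℤ → ℂ) i = 0 := by
      rw [h]; rfl
    have h2 : ((v i : ℝ) : ℂ) = 0 := h1
    exact hi (by exact_mod_cast h2)
  · show ‖((v n : ℝ) : ℂ)‖ ≤ _
    rw [Complex.norm_real]
    exact hb n
  · intro n
    show (v (n + 1) : ℂ) - 2 * (v n : ℂ) + (v (n - 1) : ℂ) +
      ((lam * ((stdMap lam ^ n) z).1.cos : ℝ) : ℂ) * (v n : ℂ) = ((E - 2 : ℝ) : ℂ) * (v n : ℂ)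
    have h3 : v (n + 1) - 2 * v n + v (n - 1) + lam * ((stdMap lam ^ n) z).1.cos * v n =
        (E - 2) * v n := by
      have := hv n
      unfold pot at this
      linarith
    exact_mod_cast h3

theorem infinite_of_frequently {lam M rho : ℝ} (hr : 0 < rho) {z : Real.Angle × Real.Angle}
    (h : ∃ᶠ n : ℕ in atTop, Loc lam M rho ((stdMap lam)^[n] z)) :
    (localizedSpectrum lam rho z).Infinite := by
  -- shifted eigenvectors
  have hsh : ∀ n : ℕ, Loc lam M rho ((stdMap lam)^[n] z) → ∃ E : ℝ, ∃ v : ℤ → ℝ, v n = 1 ∧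
      (∀ k : ℤ, |v k| ≤ M * Real.exp (-(rho * |((k - n : ℤ) : ℝ)|))) ∧
      (∀ k, v (k + 1) + v (k - 1) + (pot lam z k - E) * v k = 0) := by
    rintro n ⟨E, u, h0, hb, hu⟩
    refine ⟨E, fun k => u (k - n), by simp [h0], fun k => hb (k - n), fun k => ?_⟩
    have h1 := hu (k - n)
    have e0 : (stdMap lam)^[n] z = (stdMap lam ^ (n : ℤ)) z := by
      rw [zpow_natCast, Equiv.Perm.coe_pow]
    rw [e0, pot_shift, sub_add_cancel] at h1
    show u (k + 1 - n) + u (k - 1 - n) + (pot lam z k - E) * u (k - n) = 0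
    rw [show k + 1 - (n : ℤ) = k - n + 1 by ring, show k - 1 - (n : ℤ) = k - n - 1 by ring]
    exact h1
  intro hfin
  obtain ⟨S, hS⟩ : ∃ S : Set ℕ, S = {n : ℕ | Loc lam M rho ((stdMap lam)^[n] z)} := ⟨_, rfl⟩
  have hSinf : S.Infinite := by
    rw [hS]
    exact Nat.frequently_atTop_iff_infinite.1 h
  have hch : ∀ n : S, ∃ E : ℝ, ∃ v : ℤ → ℝ, v (n : ℕ) = 1 ∧
      (∀ k : ℤ, |v k| ≤ M * Real.exp (-(rho * |((k - (n : ℕ) : ℤ) : ℝ)|))) ∧
      (∀ k, v (k + 1) + v (k - 1) + (pot lam z k - E) * v k = 0) := by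
    rintro ⟨n, hn⟩
    refine hsh n ?_
    rw [hS] at hn
    exact hn
  choose E v hv1 hvb hvs using hch
  have hM : 0 ≤ M := by
    obtain ⟨n, hn⟩ := hSinf.nonempty
    have := (abs_nonneg _).trans (hvb ⟨n, hn⟩ n)
    rw [sub_self] at this
    simpa using this
  have hmem : ∀ n : S, E n - 2 ∈ localizedSpectrum lam rho z := by
    intro n
    refine mem_localizedSpectrum hr (C := M * Real.exp (rho * |(((n : ℕ) : ℤ) : ℝ)|)) (v := v n)
      (i := ((n : ℕ) : ℤ)) ?_ (fun k => ?_) (hvs n)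
    · rw [hv1]
      norm_num
    · refine (hvb n k).trans ?_
      rw [mul_assoc, ← Real.exp_add]
      gcongr
      have h1 : |(k : ℝ)| ≤ |((k - (n : ℕ) : ℤ) : ℝ)| + |(((n : ℕ) : ℤ) : ℝ)| := by
        have h2 := abs_add_le ((k - (n : ℕ) : ℤ) : ℝ) (((n : ℕ) : ℤ) : ℝ)
        have h3 : ((k - (n : ℕ) : ℤ) : ℝ) + (((n : ℕ) : ℤ) : ℝ) = k := by push_cast; ring
        rwa [h3] at h2
      nlinarith
  have : Finite (localizedSpectrum lam rho z) := hfin
  have : Infinite S := hSinf.to_subtype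
  obtain ⟨y, hy⟩ := Finite.exists_infinite_fiber (fun n : S =>
    (⟨E n - 2, hmem n⟩ : localizedSpectrum lam rho z))
  -- an infinite set of centres with the same eigenvalue
  obtain ⟨F, hF⟩ : ∃ F : Set ℕ, F = (fun n : S => (n : ℕ)) '' ((fun n : S =>
    (⟨E n - 2, hmem n⟩ : localizedSpectrum lam rho z)) ⁻¹' {y}) := ⟨_, rfl⟩
  have hFinf : F.Infinite := by
    rw [hF]
    exact Set.Infinite.image Subtype.val_injective.injOn (Set.infinite_coe_iff.1 hy)
  obtain ⟨a, ha⟩ := hFinf.nonempty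
  obtain ⟨R, hR⟩ : ∃ R : ℕ, M ^ 2 * Real.exp (-(rho * R)) < 1 := by
    have h1 : Tendsto (fun k : ℕ => M ^ 2 * Real.exp (-(rho * k))) atTop (𝓝 (M ^ 2 * 0)) := by
      refine Tendsto.const_mul _ (Real.tendsto_exp_atBot.comp ?_)
      exact tendsto_neg_atTop_atBot.comp (tendsto_natCast_atTop_atTop.const_mul_atTop hr)
    rw [mul_zero] at h1
    exact ((h1.eventually (gt_mem_nhds (show (0 : ℝ) < 1 by norm_num))).exists)
  obtain ⟨b, hb, hab⟩ := hFinf.exists_gt (a + R)
  have ha' := ha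
  have hb' := hb
  rw [hF] at ha' hb'
  obtain ⟨n, hn, hna⟩ := ha'
  obtain ⟨n', hn', hnb⟩ := hb'
  have hE : E n = E n' := by
    have h1 : (⟨E n - 2, hmem n⟩ : localizedSpectrum lam rho z) = y := hn
    have h2 : (⟨E n' - 2, hmem n'⟩ : localizedSpectrum lam rho z) = y := hn'
    have h3 := congrArg Subtype.val (h1.trans h2.symm)
    simp only at h3
    linarith
  have hs' := hvs n'
  rw [← hE] at hs'
  have hkey := centres_near (hvs n) hs' hr (hv1 n) (hv1 n') (hvb n) (hvb n')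
  have hna' : (n : ℕ) = a := hna
  have hnb' : (n' : ℕ) = b := hnb
  rw [hna', hnb'] at hkey
  have h5 : (R : ℝ) ≤ |((((b : ℕ) : ℤ) - ((a : ℕ) : ℤ) : ℤ) : ℝ)| := by
    have h6 : ((a + R : ℕ) : ℝ) ≤ (b : ℝ) := by exact_mod_cast hab.le
    push_cast at h6 ⊢
    refine le_trans ?_ (le_abs_self _)
    linarith
  have h7 : M ^ 2 * Real.exp (-(rho * |((((b : ℕ) : ℤ) - ((a : ℕ) : ℤ) : ℤ) : ℝ)|)) ≤
      M ^ 2 * Real.exp (-(rho * R)) := by
    gcongr
  linarith

/-- a localized solution along a lifted orbit -/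
theorem loc_of_orbit {lam : ℝ} {x : ℤ → ℝ} {k : ℤ → ℤ}
    (hx : ∀ n, x (n + 1) + x (n - 1) = 2 * x n + lam * Real.sin (x n) - 2 * Real.pi * k n)
    {W : ℤ → ℝ} {E M rho : ℝ} (h0 : W 0 = 1)
    (hb : ∀ n : ℤ, |W n| ≤ M * Real.exp (-(rho * |(n : ℝ)|))) {i : ℕ} (hi : 1 ≤ i)
    (hW : ∀ n, W (n + 1) + W (n - 1) + (lam * Real.cos (x (n + i)) - E) * W n = 0) :
    Loc lam M rho ((stdMap lam)^[i - 1] ((x 1 : Real.Angle), (x 0 : Real.Angle))) := by
  refine ⟨E, W, h0, hb, fun n => ?_⟩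
  have e0 : (stdMap lam)^[i - 1] ((x 1 : Real.Angle), (x 0 : Real.Angle)) =
      (stdMap lam ^ ((i - 1 : ℕ) : ℤ)) ((x 1 : Real.Angle), (x 0 : Real.Angle)) := by
    rw [zpow_natCast, Equiv.Perm.coe_pow]
  have h1 := stdMap_zpow (x := fun n => x (n + 1)) (k := fun n => k (n + 1)) (lam := lam) (by
    intro n
    have h2 := hx (n + 1)
    have e1 : n - 1 + 1 = n + 1 - 1 := by ring
    rw [e1]
    exact h2) (n + ((i - 1 : ℕ) : ℤ))
  have e3 : (0 : ℤ) + 1 = 1 := by norm_num
  have e4 : (-1 : ℤ) + 1 = 0 := by norm_num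
  rw [e3, e4] at h1
  have e5 : pot lam ((stdMap lam)^[i - 1] ((x 1 : Real.Angle), (x 0 : Real.Angle))) n =
      lam * Real.cos (x (n + i)) := by
    rw [e0, pot_shift]
    unfold pot
    rw [h1]
    have e6 : n + ((i - 1 : ℕ) : ℤ) + 1 = n + i := by
      push_cast [Nat.cast_sub hi]
      ring
    show lam * ((x (n + ((i - 1 : ℕ) : ℤ) + 1) : ℝ) : Real.Angle).cos = _
    rw [e6, Real.Angle.cos_coe]
  rw [e5]
  exact hW n

end Pool.Agent.MP31f1e8.KLF
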