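import Pool.Agent.Lib.MP_31f1e8_mp.KLF.Intf

/-!
KLF-Orb. The orbit of the Standard map glued from the cells.
-/

namespace Pool.Agent.MP31f1e8.KLF

open Set MeasureTheory

/-- the orbit: the site `n = k q + r` is the site `r` of the cell number `k` -/
noncomputable def orb (q : ℕ) (x : ℕ → ℝ → ℝ → ℝ) (u : ℝ → ℝ) (om t : ℝ) (n : ℤ) : ℝ :=
  x (n % (q : ℤ)).toNat (u (t + (n / (q : ℤ) : ℤ) * om)) (u (t + ((n / (q : ℤ) : ℤ) + 1) * om))

theorem orb_at {q : ℕ} (x : ℕ → ℝ → ℝ → ℝ) (u : ℝ → ℝ) (om t : ℝ) (k : ℤ) {r : ℕ} (hr : r < q) :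
    orb q x u om t (k * q + r) = x r (u (t + k * om)) (u (t + (k + 1) * om)) := by
  have hq : (0 : ℤ) < (q : ℤ) := by exact_mod_cast (Nat.zero_le r).trans_lt hr
  have h1 : (k * q + r : ℤ) / (q : ℤ) = k := by
    rw [add_comm, Int.add_mul_ediv_right _ _ hq.ne', Int.ediv_eq_zero_of_lt (by positivity)
      (by exact_mod_cast hr), zero_add]
  have h2 : (k * q + r : ℤ) % (q : ℤ) = r := by
    rw [add_comm, Int.add_mul_emod_self_right, Int.emod_eq_of_lt (by positivity)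
      (by exact_mod_cast hr)]
  unfold orb
  rw [h1, h2, Int.toNat_natCast]

theorem exists_kr {q : ℕ} (hq : 0 < q) (n : ℤ) : ∃ k : ℤ, ∃ r : ℕ, r < q ∧ n = k * q + r := by
  have hq' : (0 : ℤ) < (q : ℤ) := by exact_mod_cast hq
  refine ⟨n / q, (n % q).toNat, ?_, ?_⟩
  · have h1 := Int.emod_lt_of_pos n hq'
    have h2 := Int.emod_nonneg n hq'.ne'
    omega
  · rw [Int.toNat_of_nonneg (Int.emod_nonneg n hq'.ne')]
    have := Int.mul_ediv_add_emod n q
    linarith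

variable {lam eta kap : ℝ} {q w : ℕ} {m : ℕ → ℤ} {sg tau sigma Xr E0 : ℝ} {kp : ℕ → ℝ}
    {x : ℕ → ℝ → ℝ → ℝ} {H : ℕ → ℕ → ℝ}

theorem Cell.q0 (h : Cell lam eta kap q w m sg tau sigma Xr E0 kp x H) : 0 < q := by
  have := h.qw
  omega

theorem orb_at' (h : Cell lam eta kap q w m sg tau sigma Xr E0 kp x H) {u : ℝ → ℝ}
    (hu : ∀ t, u t ∈ Icc (-1 : ℝ) 1) (om t : ℝ) (k : ℤ) {r : ℕ} (hr : r ≤ q) :
    orb q x u om t (k * q + r) = x r (u (t + k * om)) (u (t + (k + 1) * om)) := by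
  rcases hr.lt_or_eq with hr | rfl
  · exact orb_at x u om t k hr
  · have h1 := orb_at x u om t (k + 1) (r := 0) h.q0
    have h2 : (k * r + r : ℤ) = (k + 1) * r + (0 : ℕ) := by push_cast; ring
    rw [h2, h1, h.x0 _ (hu _) _ (hu _), h.xq _ (hu _) _ (hu _)]
    push_cast
    ring_nf

/-- the orbit equations -/
theorem orb_eqn (h : Cell lam eta kap q w m sg tau sigma Xr E0 kp x H) {u : ℝ → ℝ} {om : ℝ}
    (hu : ∀ t, u t ∈ Icc (-1 : ℝ) 1) (hred : ∀ t, Red H (u (t - om)) (u t) (u (t + om))) (t : ℝ)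
    (n : ℤ) :
    orb q x u om t (n + 1) + orb q x u om t (n - 1) =
      2 * orb q x u om t n + lam * Real.sin (orb q x u om t n) -
        2 * Real.pi * (m (n % (q : ℤ)).toNat : ℤ) := by
  obtain ⟨k, r, hr, rfl⟩ := exists_kr h.q0 n
  have hq : (0 : ℤ) < (q : ℤ) := by exact_mod_cast h.q0
  have h2 : (k * q + r : ℤ) % (q : ℤ) = r := by
    rw [add_comm, Int.add_mul_emod_self_right, Int.emod_eq_of_lt (by positivity)
      (by exact_mod_cast hr)]
  rw [h2, Int.toNat_natCast]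
  have e1 : (k * q + r + 1 : ℤ) = k * q + (r + 1 : ℕ) := by push_cast; ring
  rw [e1, orb_at' h hu om t k (r := r + 1) hr, orb_at' h hu om t k hr.le]
  rcases Nat.eq_zero_or_pos r with rfl | hr0
  · have e2 : (k * q + (0 : ℕ) - 1 : ℤ) = (k - 1) * q + (q - 1 : ℕ) := by
      push_cast [Nat.cast_sub (show 1 ≤ q from h.q0)]; ring
    rw [e2, orb_at' h hu om t (k - 1) (r := q - 1) (by omega)]
    have h3 := h.junc _ (hu (t + k * om - om)) _ (hu (t + k * om)) _ (hu (t + k * om + om))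
      (hred _)
    have e3 : t + ((k : ℝ) + 1) * om = t + k * om + om := by ring
    have e4 : t + (((k - 1 : ℤ) : ℝ)) * om = t + k * om - om := by push_cast; ring
    have e5 : t + ((((k - 1 : ℤ) : ℝ)) + 1) * om = t + k * om := by push_cast; ring
    rw [e3, e4, e5, h.x0 _ (hu _) _ (hu _), zero_add]
    exact h3
  · have e2 : (k * q + (r : ℕ) - 1 : ℤ) = k * q + (r - 1 : ℕ) := by
      push_cast [Nat.cast_sub (show 1 ≤ r from hr0)]; ring
    rw [e2, orb_at' h hu om t k (r := r - 1) (by omega)]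
    exact h.eqn _ (hu _) _ (hu _) r hr0 hr

end Pool.Agent.MP31f1e8.KLF
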