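import Mathlib

/-!
KLF-Trig. Elementary inequalities for `cos (2 π t)` on the four arcs and for `cos` near `π + 1/10`.
-/

namespace Pool.Agent.MP31f1e8.KLF

open Set Real

/-- monotone differences from a lower bound of the derivative -/
theorem diff_ge {f f' : ℝ → ℝ} (hf : ∀ t, HasDerivAt f (f' t) t) {m a b x y : ℝ}
    (hm : ∀ t, a ≤ t → t ≤ b → m ≤ f' t) (hx : a ≤ x) (hxy : x ≤ y) (hy : y ≤ b) :
    m * (y - x) ≤ f y - f x := by
  rcases hxy.lt_or_eq with h | rfl
  · obtain ⟨c, hc, hc'⟩ := exists_hasDerivAt_eq_slope f f' h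
      (fun t _ => (hf t).continuousAt.continuousWithinAt) (fun t _ => hf t)
    have h1 := hm c (hx.trans hc.1.le) (hc.2.le.trans hy)
    rw [hc', le_div_iff₀ (by linarith)] at h1
    exact h1
  · simp

theorem hasDeriv_cos (t : ℝ) :
    HasDerivAt (fun t => cos (2 * π * t)) (-(2 * π * sin (2 * π * t))) t := by
  have h1 : HasDerivAt (fun t : ℝ => 2 * π * t) (2 * π) t := by
    simpa using (hasDerivAt_id t).const_mul (2 * π)
  have h2 := h1.cos
  convert h2 using 1
  ring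

theorem sin_ge_half {x : ℝ} (h1 : π / 6 ≤ x) (h2 : x ≤ 5 * π / 6) : 1 / 2 ≤ sin x := by
  have hpi := pi_pos
  rcases le_total x (π / 2) with h | h
  · rw [← sin_pi_div_six]
    exact sin_le_sin_of_le_of_le_pi_div_two (by linarith) h h1
  · rw [← sin_pi_div_six, ← sin_pi_sub x]
    exact sin_le_sin_of_le_of_le_pi_div_two (by linarith) (by linarith) (by linarith)

theorem cos_inc {x y : ℝ} (hx : 3 / 5 ≤ x) (hxy : x ≤ y) (hy : y ≤ 9 / 10) :
    3 * (y - x) ≤ cos (2 * π * y) - cos (2 * π * x) := by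
  refine diff_ge hasDeriv_cos (a := 3 / 5) (b := 9 / 10) (fun t h1 h2 => ?_) hx hxy hy
  have hpi := pi_gt_three
  have h3 : 1 / 2 ≤ sin (2 * π * t - π) := sin_ge_half (by nlinarith) (by nlinarith)
  have h4 : sin (2 * π * t - π) = -sin (2 * π * t) := sin_sub_pi _
  rw [h4] at h3
  nlinarith

theorem cos_dec {x y : ℝ} (hx : 11 / 10 ≤ x) (hxy : x ≤ y) (hy : y ≤ 7 / 5) :
    3 * (y - x) ≤ cos (2 * π * x) - cos (2 * π * y) := by
  have h0 : ∀ t, HasDerivAt (fun t => -cos (2 * π * t)) (2 * π * sin (2 * π * t)) t := by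
    intro t
    have := (hasDeriv_cos t).neg
    rwa [neg_neg] at this
  have h := diff_ge h0 (m := 3) (a := 11 / 10) (b := 7 / 5) (fun t h1 h2 => ?_) hx hxy hy
  · linarith
  have hpi := pi_gt_three
  have h3 : 1 / 2 ≤ sin (2 * π * t - 2 * π) := sin_ge_half (by nlinarith) (by nlinarith)
  rw [sin_sub_two_pi] at h3
  nlinarith

theorem cos_top {t : ℝ} (h1 : 9 / 10 ≤ t) (h2 : t ≤ 11 / 10) : 1 / 2 ≤ cos (2 * π * t) := by
  have hpi := pi_gt_three
  rw [← cos_sub_two_pi, ← cos_abs, ← cos_pi_div_three]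
  have h3 : |2 * π * t - 2 * π| ≤ π / 5 := by
    rw [abs_le]
    constructor <;> nlinarith
  exact cos_le_cos_of_nonneg_of_le_pi (abs_nonneg _) (by linarith) (by linarith)

theorem cos_bot {t : ℝ} (h1 : 7 / 5 ≤ t) (h2 : t ≤ 8 / 5) : cos (2 * π * t) ≤ -(1 / 2) := by
  have h3 := cos_top (t := t - 1 / 2) (by linarith) (by linarith)
  have h4 : 2 * π * (t - 1 / 2) = 2 * π * t - π := by ring
  rw [h4, cos_sub_pi] at h3
  linarith

theorem abs_cos_sub_le (x y : ℝ) : |cos x - cos y| ≤ |x - y| := by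
  have h : LipschitzWith 1 Real.cos := Real.lipschitzWith_cos
  simpa [Real.dist_eq] using h.dist_le_mul x y

theorem cos_lip (x y : ℝ) : |cos (2 * π * x) - cos (2 * π * y)| ≤ 32 / 5 * |x - y| := by
  refine (abs_cos_sub_le _ _).trans ?_
  rw [← mul_sub, abs_mul, abs_of_pos (by positivity : (0:ℝ) < 2 * π)]
  have := pi_lt_d2
  gcongr
  linarith

/-- slopes of `cos` near `π + 1/10` -/
theorem cos_well {X Y : ℝ} (hX : |X - (π + 1 / 10)| ≤ 1 / 100) (hY : |Y - (π + 1 / 10)| ≤ 1 / 100)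
    (h : Y ≤ X) : 8 / 100 * (X - Y) ≤ cos X - cos Y ∧ cos X - cos Y ≤ 11 / 100 * (X - Y) := by
  rw [abs_le] at hX hY
  have hs : ∀ t, π + 1 / 10 - 1 / 100 ≤ t → t ≤ π + 1 / 10 + 1 / 100 →
      8 / 100 ≤ -sin t ∧ -sin t ≤ 11 / 100 := by
    intro t h1 h2
    have e : -sin t = sin (t - π) := (sin_sub_pi t).symm
    rw [e]
    obtain ⟨s, hs⟩ : ∃ s, s = t - π := ⟨_, rfl⟩
    rw [← hs]
    have h3 : 9 / 100 ≤ s := by rw [hs]; linarith
    have h4 : s ≤ 11 / 100 := by rw [hs]; linarith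
    constructor
    · have h5 := sin_gt_sub_cube (by linarith : 0 < s)
      have h6 := pow_le_pow_left₀ (by linarith : 0 ≤ s) h4 3
      norm_num at h6
      linarith
    · exact (sin_le (by linarith)).trans h4
  constructor
  · exact diff_ge (f := cos) (f' := fun t => -sin t) (fun t => hasDerivAt_cos t)
      (a := π + 1 / 10 - 1 / 100) (b := π + 1 / 10 + 1 / 100) (fun t h1 h2 => (hs t h1 h2).1)
      (by linarith [hY.1]) h (by linarith [hX.2])
  · have := diff_ge (f := fun t => -cos t) (f' := fun t => sin t) (m := -(11 / 100)) (fun t => by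
        have := (hasDerivAt_cos t).neg
        rwa [neg_neg] at this)
      (a := π + 1 / 10 - 1 / 100) (b := π + 1 / 10 + 1 / 100) (fun t h1 h2 => by
        have := (hs t h1 h2).2
        linarith)
      (by linarith [hY.1]) h (by linarith [hX.2])
    linarith

end Pool.Agent.MP31f1e8.KLF
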