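import Pool.Agent.Lib.MP_31f1e8_mp.KLF.Orb
import Pool.Agent.Lib.MP_31f1e8_mp.KLF.Trig

/-!
KLF-Well. The curve `u` close to `± a cos (2 π t)` and the well function.
-/

namespace Pool.Agent.MP31f1e8.KLF

open Set Real

/-- `u` is close to `sigma a cos (2 π t)` -/
structure Cur (sigma a : ℝ) (u : ℝ → ℝ) : Prop where
  a0 : 0 < a
  a1 : a ≤ 1 / 8
  sig : sigma = 1 ∨ sigma = -1
  per : ∀ t, u (t + 1) = u t
  near : ∀ t, |sigma * u t - a * cos (2 * π * t)| ≤ a / 10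
  lip : ∀ t t', |(sigma * u t - a * cos (2 * π * t)) - (sigma * u t' - a * cos (2 * π * t'))| ≤
    a / 10 * |t - t'|

theorem Cur.sigma_abs {sigma a : ℝ} {u : ℝ → ℝ} (h : Cur sigma a u) : |sigma| = 1 := by
  rcases h.sig with h | h <;> simp [h]

theorem Cur.abs_le {sigma a : ℝ} {u : ℝ → ℝ} (h : Cur sigma a u) (t : ℝ) : |u t| ≤ 11 / 10 * a := by
  have h1 := h.near t
  have h2 : |sigma * u t| ≤ |sigma * u t - a * cos (2 * π * t)| + |a * cos (2 * π * t)| := by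
    have := abs_add_le (sigma * u t - a * cos (2 * π * t)) (a * cos (2 * π * t))
    simpa using this
  rw [abs_mul, h.sigma_abs, one_mul, abs_mul a, abs_of_pos h.a0] at h2
  nlinarith [abs_cos_le_one (2 * π * t), h.a0]

theorem Cur.mem {sigma a : ℝ} {u : ℝ → ℝ} (h : Cur sigma a u) (t : ℝ) : u t ∈ Icc (-1 : ℝ) 1 := by
  have h1 := h.abs_le t
  have h2 := h.a1
  rw [_root_.abs_le] at h1
  constructor <;> linarith [h1.1, h1.2]

theorem Cur.lip' {sigma a : ℝ} {u : ℝ → ℝ} (h : Cur sigma a u) (t t' : ℝ) :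
    |u t - u t'| ≤ 7 * a * |t - t'| := by
  have h1 := h.lip t t'
  have h2 := cos_lip t t'
  have h3 : |sigma * (u t - u t')| ≤ |(sigma * u t - a * cos (2 * π * t)) -
      (sigma * u t' - a * cos (2 * π * t'))| + |a * (cos (2 * π * t) - cos (2 * π * t'))| := by
    have := abs_add_le ((sigma * u t - a * cos (2 * π * t)) - (sigma * u t' - a * cos (2 * π * t')))
      (a * (cos (2 * π * t) - cos (2 * π * t')))
    refine le_of_eq_of_le ?_ this
    congr 1
    ring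
  rw [abs_mul, h.sigma_abs, one_mul, abs_mul a, abs_of_pos h.a0] at h3
  have h4 : a * |cos (2 * π * t) - cos (2 * π * t')| ≤ a * (32 / 5 * |t - t'|) :=
    mul_le_mul_of_nonneg_left h2 h.a0.le
  nlinarith [mul_nonneg h.a0.le (abs_nonneg (t - t'))]

theorem Cur.inc {sigma a : ℝ} {u : ℝ → ℝ} (h : Cur sigma a u) {x y : ℝ} (hx : 3 / 5 ≤ x) (hxy : x ≤ y)
    (hy : y ≤ 9 / 10) : 29 / 10 * a * (y - x) ≤ sigma * (u y - u x) := by
  have h1 := (_root_.abs_le.1 (h.lip y x)).1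
  rw [abs_of_nonneg (by linarith)] at h1
  have h2 := mul_le_mul_of_nonneg_left (cos_inc hx hxy hy) h.a0.le
  nlinarith

theorem Cur.dec {sigma a : ℝ} {u : ℝ → ℝ} (h : Cur sigma a u) {x y : ℝ} (hx : 11 / 10 ≤ x) (hxy : x ≤ y)
    (hy : y ≤ 7 / 5) : 29 / 10 * a * (y - x) ≤ sigma * (u x - u y) := by
  have h1 := (_root_.abs_le.1 (h.lip x y)).1
  rw [abs_sub_comm x y, abs_of_nonneg (by linarith)] at h1
  have h2 := mul_le_mul_of_nonneg_left (cos_dec hx hxy hy) h.a0.le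
  nlinarith

theorem Cur.top {sigma a : ℝ} {u : ℝ → ℝ} (h : Cur sigma a u) {t : ℝ} (h1 : 9 / 10 ≤ t)
    (h2 : t ≤ 11 / 10) : 2 / 5 * a ≤ sigma * u t := by
  have h3 := (_root_.abs_le.1 (h.near t)).1
  have h4 := mul_le_mul_of_nonneg_left (cos_top h1 h2) h.a0.le
  linarith

theorem Cur.bot {sigma a : ℝ} {u : ℝ → ℝ} (h : Cur sigma a u) {t : ℝ} (h1 : 7 / 5 ≤ t)
    (h2 : t ≤ 8 / 5) : sigma * u t ≤ -(2 / 5 * a) := by
  have h3 := (_root_.abs_le.1 (h.near t)).2
  have h4 := mul_le_mul_of_nonneg_left (cos_bot h1 h2) h.a0.le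
  linarith

/-- A function of two variables with slopes of one sign in the first variable and small slopes in the
second one. -/
structure WF (sigma K : ℝ) (F : ℝ → ℝ → ℝ) : Prop where
  K0 : 0 < K
  low : ∀ a ∈ Icc (-1 : ℝ) 1, ∀ b ∈ Icc (-1 : ℝ) 1, ∀ u ∈ Icc (-1 : ℝ) 1, 0 ≤ sigma * (a - b) →
    4 / 100 * K * (sigma * (a - b)) ≤ F a u - F b u
  up : ∀ a ∈ Icc (-1 : ℝ) 1, ∀ b ∈ Icc (-1 : ℝ) 1, ∀ u ∈ Icc (-1 : ℝ) 1,
    |F a u - F b u| ≤ 22 / 100 * K * |a - b|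
  fut : ∀ a ∈ Icc (-1 : ℝ) 1, ∀ u ∈ Icc (-1 : ℝ) 1, ∀ v ∈ Icc (-1 : ℝ) 1,
    |F a u - F a v| ≤ K / 10 ^ 4 * |u - v|

section

variable {sigma K a om : ℝ} {F : ℝ → ℝ → ℝ} {u : ℝ → ℝ}

theorem WF.lip (hF : WF sigma K F) (hu : Cur sigma a u) (x y : ℝ) :
    |F (u x) (u (x + om)) - F (u y) (u (y + om))| ≤ 16 * (K * a / 10) * |x - y| := by
  have h1 := hF.up _ (hu.mem x) _ (hu.mem y) _ (hu.mem (x + om))
  have h2 := hF.fut _ (hu.mem y) _ (hu.mem (x + om)) _ (hu.mem (y + om))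
  have h3 := hu.lip' x y
  have h4 := hu.lip' (x + om) (y + om)
  have e : x + om - (y + om) = x - y := by ring
  rw [e] at h4
  have hK := hF.K0
  have h5 : 22 / 100 * K * |u x - u y| ≤ 22 / 100 * K * (7 * a * |x - y|) := by gcongr
  have h6 : K / 10 ^ 4 * |u (x + om) - u (y + om)| ≤ K / 10 ^ 4 * (7 * a * |x - y|) := by gcongr
  have h7 : F (u x) (u (x + om)) - F (u y) (u (y + om)) =
      (F (u x) (u (x + om)) - F (u y) (u (x + om))) + (F (u y) (u (x + om)) - F (u y) (u (y + om))) := by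
    ring
  rw [h7]
  refine (abs_add_le _ _).trans ?_
  have h8 : 0 ≤ K * a * |x - y| := mul_nonneg (mul_nonneg hK.le hu.a0.le) (abs_nonneg _)
  nlinarith

theorem WF.low' (hF : WF sigma K F) (hu : Cur sigma a u) {x y : ℝ} (hxy : x ≤ y)
    (h : 29 / 10 * a * (y - x) ≤ sigma * (u y - u x)) :
    1 / 16 * (y - x) * (K * a / 10) ≤ F (u y) (u (y + om)) - F (u x) (u (x + om)) := by
  have hK := hF.K0
  have ha := hu.a0
  have h0 : 0 ≤ a * (y - x) := mul_nonneg ha.le (by linarith)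
  have h1 := hF.low _ (hu.mem y) _ (hu.mem x) _ (hu.mem (y + om)) (by linarith)
  have h2 := (_root_.abs_le.1 (hF.fut _ (hu.mem x) _ (hu.mem (y + om)) _ (hu.mem (x + om)))).1
  have h4 := hu.lip' (y + om) (x + om)
  have e : y + om - (x + om) = y - x := by ring
  rw [e, abs_of_nonneg (by linarith : (0:ℝ) ≤ y - x)] at h4
  have h5 : 4 / 100 * K * (29 / 10 * a * (y - x)) ≤ 4 / 100 * K * (sigma * (u y - u x)) := by gcongr
  have h6 : K / 10 ^ 4 * |u (y + om) - u (x + om)| ≤ K / 10 ^ 4 * (7 * a * (y - x)) := by gcongr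
  have h8 : 0 ≤ K * (a * (y - x)) := mul_nonneg hK.le h0
  nlinarith

theorem WF.incA (hF : WF sigma K F) (hu : Cur sigma a u) {x y : ℝ} (hx : 3 / 5 ≤ x) (hxy : x ≤ y)
    (hy : y ≤ 9 / 10) :
    1 / 16 * (y - x) * (K * a / 10) ≤ F (u y) (u (y + om)) - F (u x) (u (x + om)) :=
  hF.low' hu hxy (hu.inc hx hxy hy)

theorem WF.decB (hF : WF sigma K F) (hu : Cur sigma a u) {x y : ℝ} (hx : 11 / 10 ≤ x) (hxy : x ≤ y)
    (hy : y ≤ 7 / 5) :
    1 / 16 * (y - x) * (K * a / 10) ≤ F (u x) (u (x + om)) - F (u y) (u (y + om)) := by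
  have hK := hF.K0
  have ha := hu.a0
  have h := hu.dec hx hxy hy
  have h0 : 0 ≤ a * (y - x) := mul_nonneg ha.le (by linarith)
  have h1 := hF.low _ (hu.mem x) _ (hu.mem y) _ (hu.mem (x + om)) (by linarith)
  have h2 := (_root_.abs_le.1 (hF.fut _ (hu.mem y) _ (hu.mem (x + om)) _ (hu.mem (y + om)))).1
  have h4 := hu.lip' (x + om) (y + om)
  have e : x + om - (y + om) = -(y - x) := by ring
  rw [e, abs_neg, abs_of_nonneg (by linarith : (0:ℝ) ≤ y - x)] at h4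
  have h5 : 4 / 100 * K * (29 / 10 * a * (y - x)) ≤ 4 / 100 * K * (sigma * (u x - u y)) := by gcongr
  have h6 : K / 10 ^ 4 * |u (x + om) - u (y + om)| ≤ K / 10 ^ 4 * (7 * a * (y - x)) := by gcongr
  have h8 : 0 ≤ K * (a * (y - x)) := mul_nonneg hK.le h0
  nlinarith

theorem zero_mem' : (0 : ℝ) ∈ Icc (-1 : ℝ) 1 := by constructor <;> norm_num

theorem WF.fut0 (hF : WF sigma K F) (hu : Cur sigma a u) (b : ℝ) (hb : b ∈ Icc (-1 : ℝ) 1) (t : ℝ) :
    |F b (u t) - F b 0| ≤ K * a / 10 * (11 / 10 ^ 4) := by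
  have h2 := hF.fut b hb _ (hu.mem t) 0 zero_mem'
  rw [sub_zero] at h2
  have h3 := hu.abs_le t
  have hK := hF.K0
  have h4 : K / 10 ^ 4 * |u t| ≤ K / 10 ^ 4 * (11 / 10 * a) := by gcongr
  linarith

theorem WF.top (hF : WF sigma K F) (hu : Cur sigma a u) {t : ℝ} (h1 : 9 / 10 ≤ t) (h2 : t ≤ 11 / 10) :
    (1 / 16 + 1 / 16) * (K * a / 10) ≤ F (u t) (u (t + om)) - F 0 0 := by
  have hK := hF.K0
  have ha := hu.a0
  have h3 := hu.top h1 h2
  have h4 := hF.low _ (hu.mem t) 0 zero_mem' _ (hu.mem (t + om)) (by rw [sub_zero]; linarith)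
  rw [sub_zero] at h4
  have h5 := (_root_.abs_le.1 (hF.fut0 hu 0 zero_mem' (t + om))).1
  have h6 : 4 / 100 * K * (2 / 5 * a) ≤ 4 / 100 * K * (sigma * u t) := by gcongr
  have h7 : 0 < K * a := mul_pos hK ha
  linarith

theorem WF.bot (hF : WF sigma K F) (hu : Cur sigma a u) {t : ℝ} (h1 : 7 / 5 ≤ t) (h2 : t ≤ 8 / 5) :
    F (u t) (u (t + om)) - F 0 0 ≤ (-(1 / 16) - 1 / 16) * (K * a / 10) := by
  have hK := hF.K0
  have ha := hu.a0
  have h3 := hu.bot h1 h2
  have h4 := hF.low 0 zero_mem' _ (hu.mem t) _ (hu.mem (t + om)) (by rw [zero_sub]; linarith)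
  rw [zero_sub, mul_neg] at h4
  have h5 := (_root_.abs_le.1 (hF.fut0 hu 0 zero_mem' (t + om))).2
  have h6 : 4 / 100 * K * (2 / 5 * a) ≤ 4 / 100 * K * (-(sigma * u t)) := by
    gcongr
    linarith
  have h7 : 0 < K * a := mul_pos hK ha
  linarith

end

section

variable {lam eta kap : ℝ} {q w : ℕ} {m : ℕ → ℤ} {sg tau sigma Xr E0 : ℝ} {kp : ℕ → ℝ}
    {x : ℕ → ℝ → ℝ → ℝ} {H : ℕ → ℕ → ℝ}

theorem Cell.tau_ge (h : Cell lam eta kap q w m sg tau sigma Xr E0 kp x H) :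
    1 ≤ 2 * tau * (lam + 4) ^ w := by
  have h1 := h.left 1 (by constructor <;> norm_num) 0 zero_mem' 0 zero_mem' 0 (Nat.zero_le _)
  rw [h.x0 1 (by constructor <;> norm_num) 0 zero_mem', h.x0 0 zero_mem' 0 zero_mem'] at h1
  have h2 : 0 < |sg| := abs_pos.2 h.sg0
  have e : Xr + sg * 1 - (Xr + sg * 0) = sg := by ring
  rw [e, sub_zero, abs_one, mul_one, Nat.sub_zero] at h1
  have h3 : 1 * |sg| ≤ (2 * tau * (lam + 4) ^ w) * |sg| := by linarith
  exact le_of_mul_le_mul_right h3 h2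

theorem small1 (hl : 10 ^ 12 ≤ lam) (hq : 4 * w + 10 ≤ q) :
    (25 / lam) ^ (q - w) * (lam + 4) ^ w ≤ 1 / (2 * 10 ^ 4) := by
  have hl0 : 0 < lam := by linarith
  have h0 : 0 ≤ 25 / lam := by positivity
  have h1 : 25 / lam ≤ 1 / (2 * 10 ^ 4) := by
    rw [div_le_div_iff₀ hl0 (by norm_num)]
    linarith
  have h2 : (25 / lam) ^ 2 * (lam + 4) ≤ 1 := by
    rw [div_pow, div_mul_eq_mul_div, div_le_one (by positivity)]
    nlinarith
  have h3 : (25 / lam) ^ (q - w) = ((25 / lam) ^ 2) ^ w * (25 / lam) ^ (q - 3 * w - 1) * (25 / lam) := by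
    rw [← pow_mul, ← pow_add, ← pow_succ]
    congr 1
    omega
  have h4 : (25 / lam) ^ (q - 3 * w - 1) ≤ 1 := pow_le_one₀ h0 (h1.trans (by norm_num))
  calc (25 / lam) ^ (q - w) * (lam + 4) ^ w
      = ((25 / lam) ^ 2 * (lam + 4)) ^ w * (25 / lam) ^ (q - 3 * w - 1) * (25 / lam) := by
        rw [h3, mul_pow]; ring
    _ ≤ 1 * 1 * (1 / (2 * 10 ^ 4)) := by
        have h5 : 0 ≤ (25 / lam) ^ 2 * (lam + 4) := by positivity
        have h6 := pow_le_one₀ h5 h2 (n := w)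
        have h7 : 0 ≤ (25 / lam) ^ (q - 3 * w - 1) := pow_nonneg h0 _
        have h8 : 0 ≤ ((25 / lam) ^ 2 * (lam + 4)) ^ w := pow_nonneg h5 _
        gcongr
    _ = 1 / (2 * 10 ^ 4) := by norm_num

theorem Cell.fut_small (h : Cell lam eta kap q w m sg tau sigma Xr E0 kp x H) (hl : 10 ^ 12 ≤ lam) :
    (25 / lam) ^ (q - w) ≤ tau / 10 ^ 4 := by
  have h1 := h.tau_ge
  have h2 := small1 (w := w) hl h.qw
  have hl0 : 0 < lam := by linarith
  have h3 : 0 < (lam + 4) ^ w := by positivity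
  have h4 : (25 / lam) ^ (q - w) * (lam + 4) ^ w ≤ tau / 10 ^ 4 * (lam + 4) ^ w := by
    refine h2.trans ?_
    have h5 : 1 / (2 * 10 ^ 4 : ℝ) * 1 ≤ 1 / (2 * 10 ^ 4) * (2 * tau * (lam + 4) ^ w) := by gcongr
    calc (1 / (2 * 10 ^ 4) : ℝ) = 1 / (2 * 10 ^ 4) * 1 := by ring
      _ ≤ _ := h5
      _ = _ := by ring
  exact le_of_mul_le_mul_right h4 h3

/-- the well function of a cell -/
theorem Cell.wf (h : Cell lam eta kap q w m sg tau sigma Xr E0 kp x H) (hl : 10 ^ 12 ≤ lam) :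
    WF sigma (lam * tau * |sg|) (fun a b => lam * cos (x w a b)) := by
  have hl0 : 0 < lam := by linarith
  have hs : 0 < |sg| := abs_pos.2 h.sg0
  have ht := h.tau0
  have hwq : w ≤ q := by have := h.qw; omega
  have key : ∀ a ∈ Icc (-1 : ℝ) 1, ∀ b ∈ Icc (-1 : ℝ) 1, ∀ u ∈ Icc (-1 : ℝ) 1, 0 ≤ sigma * (a - b) →
      4 / 100 * (lam * tau * |sg|) * (sigma * (a - b)) ≤ lam * cos (x w a u) - lam * cos (x w b u) ∧
      lam * cos (x w a u) - lam * cos (x w b u) ≤ 22 / 100 * (lam * tau * |sg|) * |a - b| := by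
    intro a ha b hb u hu hab
    have h1 := h.right a ha b hb u hu w le_rfl hwq
    rw [Nat.sub_self, pow_zero, one_mul] at h1
    have h2 : tau / 2 * |sg| * (sigma * (a - b)) ≤ x w a u - x w b u := by
      rcases h.sig with hs | hs
      · rw [hs, one_mul] at hab ⊢
        have := h.wlow a ha b hb u hu (by linarith)
        rwa [hs, one_mul] at this
      · rw [hs] at hab ⊢
        have := h.wlow b hb a ha u hu (by linarith)
        rw [hs] at this
        linarith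
    have h3 : x w b u ≤ x w a u := by
      have : 0 ≤ tau / 2 * |sg| * (sigma * (a - b)) := by positivity
      linarith
    obtain ⟨h4, h5⟩ := cos_well (h.wval a ha u hu) (h.wval b hb u hu) h3
    rw [abs_of_nonneg (by linarith)] at h1
    constructor
    · have h6 : lam * (8 / 100 * (tau / 2 * |sg| * (sigma * (a - b)))) ≤
          lam * (cos (x w a u) - cos (x w b u)) := by
        apply mul_le_mul_of_nonneg_left _ hl0.le
        linarith
      linarith
    · have h6 : lam * (cos (x w a u) - cos (x w b u)) ≤ lam * (11 / 100 * (2 * tau * |sg| * |a - b|)) := by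
        apply mul_le_mul_of_nonneg_left _ hl0.le
        linarith
      linarith
  refine ⟨by positivity, fun a ha b hb u hu hab => (key a ha b hb u hu hab).1, ?_, ?_⟩
  · intro a ha b hb u hu
    show |lam * cos (x w a u) - lam * cos (x w b u)| ≤ _
    rcases le_total 0 (sigma * (a - b)) with hab | hab
    · have h1 := key a ha b hb u hu hab
      have h2 : 0 ≤ lam * cos (x w a u) - lam * cos (x w b u) := by
        have : 0 ≤ 4 / 100 * (lam * tau * |sg|) * (sigma * (a - b)) := by positivity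
        linarith [h1.1]
      rw [abs_of_nonneg h2]
      exact h1.2
    · have hab' : 0 ≤ sigma * (b - a) := by linarith
      have h1 := key b hb a ha u hu hab'
      have h2 : 0 ≤ lam * cos (x w b u) - lam * cos (x w a u) := by
        have : 0 ≤ 4 / 100 * (lam * tau * |sg|) * (sigma * (b - a)) := by positivity
        linarith [h1.1]
      rw [abs_sub_comm, abs_of_nonneg h2, abs_sub_comm a b]
      exact h1.2
  · intro a ha u hu v hv
    show |lam * cos (x w a u) - lam * cos (x w a v)| ≤ _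
    rw [← mul_sub, abs_mul, abs_of_pos hl0]
    have h1 := (abs_cos_sub_le (x w a u) (x w a v)).trans (h.fut a ha u hu v hv w hwq)
    have h2 := h.fut_small hl
    have h3 : (25 / lam) ^ (q - w) * (|sg| * |u - v|) ≤ tau / 10 ^ 4 * (|sg| * |u - v|) := by gcongr
    have h4 := mul_le_mul_of_nonneg_left (h1.trans h3) hl0.le
    linarith

end

end Pool.Agent.MP31f1e8.KLF
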